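import Mathlib

/-!
# Gaussian integers: norms, prime factors, Chebyshev's bound
-/

set_option autoImplicit false

open Finset UniqueFactorizationMonoid

namespace Q257.Gauss

/-- a choice of representatives of the classes of associated Gaussian integers -/
noncomputable scoped instance instNorm : NormalizationMonoid GaussianInt :=
  (UniqueFactorizationMonoid.strongNormalizationMonoid (α := GaussianInt)).toNormalizationMonoid

/-- the norm as a natural number -/
def N (z : GaussianInt) : ℕ := z.norm.natAbs

lemma N_cast (z : GaussianInt) : (N z : ℤ) = z.re ^ 2 + z.im ^ 2 := by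
  unfold N
  rw [GaussianInt.abs_natCast_norm, Zsqrtd.norm_def]
  ring

lemma N_mul (a b : GaussianInt) : N (a * b) = N a * N b := by
  unfold N
  rw [Zsqrtd.norm_mul, Int.natAbs_mul]

lemma N_one : N 1 = 1 := by
  unfold N
  simp

lemma N_pow (a : GaussianInt) (k : ℕ) : N (a ^ k) = N a ^ k := by
  induction k with
  | zero => simp [N_one]
  | succ k ih => rw [pow_succ, N_mul, ih, pow_succ]

lemma N_eq_zero {a : GaussianInt} : N a = 0 ↔ a = 0 := by
  unfold N
  rw [Int.natAbs_eq_zero, GaussianInt.norm_eq_zero]

lemma N_pos {a : GaussianInt} (h : a ≠ 0) : 0 < N a := Nat.pos_of_ne_zero (fun h0 => h (N_eq_zero.1 h0))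

lemma N_dvd {a b : GaussianInt} (h : a ∣ b) : N a ∣ N b := by
  obtain ⟨c, rfl⟩ := h
  rw [N_mul]
  exact dvd_mul_right _ _

lemma N_assoc {a b : GaussianInt} (h : Associated a b) : N a = N b :=
  Nat.dvd_antisymm (N_dvd h.dvd) (N_dvd h.symm.dvd)

lemma N_natCast (n : ℕ) : N (n : GaussianInt) = n ^ 2 := by
  unfold N
  rw [Zsqrtd.norm_natCast, Int.natAbs_mul, Int.natAbs_natCast, sq]

lemma N_eq_one {a : GaussianInt} : N a = 1 ↔ IsUnit a := Zsqrtd.norm_eq_one_iff

lemma two_le_N {p : GaussianInt} (hp : Prime p) : 2 ≤ N p := by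
  have h1 : N p ≠ 0 := fun h => hp.ne_zero (N_eq_zero.1 h)
  have h2 : N p ≠ 1 := fun h => hp.not_isUnit (N_eq_one.1 h)
  omega

lemma N_multiset (s : Multiset GaussianInt) : N s.prod = (s.map N).prod := by
  induction s using Multiset.induction with
  | empty => simp [N_one]
  | cons a s ih => rw [Multiset.prod_cons, N_mul, ih, Multiset.map_cons, Multiset.prod_cons]

lemma N_prod {ι : Type*} (s : Finset ι) (f : ι → GaussianInt) : N (∏ i ∈ s, f i) = ∏ i ∈ s, N (f i) := by
  classical
  induction s using Finset.induction with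
  | empty => simp [N_one]
  | insert a s ha ih => rw [prod_insert ha, prod_insert ha, N_mul, ih]

/-- the logarithm of the norm as a sum over the prime factors -/
lemma log_N {n : GaussianInt} (hn : n ≠ 0) :
    Real.log (N n) = ∑ p ∈ (normalizedFactors n).toFinset, ((normalizedFactors n).count p : ℝ) * Real.log (N p) := by
  have h1 : N n = ∏ p ∈ (normalizedFactors n).toFinset, N p ^ (normalizedFactors n).count p := by
    rw [← Finset.prod_multiset_map_count, ← N_multiset]
    exact (N_assoc (prod_normalizedFactors hn)).symm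
  rw [h1]
  push_cast
  rw [Real.log_prod]
  · refine sum_congr rfl fun p _ => ?_
    rw [Real.log_pow]
  · intro p hp
    have hp' : Prime p := prime_of_normalized_factor p (Multiset.mem_toFinset.1 hp)
    have := N_pos hp'.ne_zero
    positivity

/-- the number of the powers of `p` which divide `n` -/
lemma pow_dvd_iff {p n : GaussianInt} (hp : Prime p) (hnorm : normalize p = p) (hn : n ≠ 0) (k : ℕ) :
    p ^ k ∣ n ↔ k ≤ (normalizedFactors n).count p := by
  rw [pow_dvd_iff_le_emultiplicity, emultiplicity_eq_count_normalizedFactors hp.irreducible hn, hnorm]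
  exact Nat.cast_le

lemma mem_factors_iff {p n : GaussianInt} (hp : Prime p) (hnorm : normalize p = p) (hn : n ≠ 0) :
    p ∈ (normalizedFactors n).toFinset ↔ p ∣ n := by
  rw [Multiset.mem_toFinset]
  constructor
  · exact dvd_of_mem_normalizedFactors
  · intro h
    obtain ⟨q, hq, hpq⟩ := exists_mem_normalizedFactors_of_dvd hn hp.irreducible h
    have h2 := normalize_normalized_factor q hq
    have h3 : normalize p = normalize q := normalize_eq_normalize_iff_associated.2 hpq
    rw [hnorm, h2] at h3
    rwa [h3]

end Q257.Gauss
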