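import Mathlib
import Pool.Agent.Q257.Gauss.Basic

/-!
# Chebyshev's bound for the Gaussian primes
-/

set_option autoImplicit false

open Finset UniqueFactorizationMonoid

namespace Q257.Gauss

/-- the Gaussian integers with `|re|, |im| ≤ s` -/
noncomputable def sq (s : ℕ) : Finset GaussianInt :=
  (Icc (-(s : ℤ)) s ×ˢ Icc (-(s : ℤ)) s).image (fun ab => (⟨ab.1, ab.2⟩ : GaussianInt))

lemma mem_sq {s : ℕ} {z : GaussianInt} : z ∈ sq s ↔ (-(s : ℤ) ≤ z.re ∧ z.re ≤ s) ∧ (-(s : ℤ) ≤ z.im ∧ z.im ≤ s) := by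
  unfold sq
  simp only [mem_image, mem_product, mem_Icc, Prod.exists]
  constructor
  · rintro ⟨a, b, h, rfl⟩
    exact h
  · intro h
    exact ⟨z.re, z.im, h, by ext <;> rfl⟩

lemma card_sq (s : ℕ) : (sq s).card ≤ (2 * s + 1) ^ 2 := by
  unfold sq
  refine card_image_le.trans ?_
  rw [card_product, Int.card_Icc]
  have : ((s : ℤ) + 1 - -(s : ℤ)).toNat = 2 * s + 1 := by omega
  rw [this, _root_.sq]

lemma mem_sq_of_N_le {z : GaussianInt} {X : ℕ} (h : N z ≤ X) : z ∈ sq (Nat.sqrt X) := by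
  have h1 := N_cast z
  have h2 : ∀ c : ℤ, c ^ 2 ≤ X → -(Nat.sqrt X : ℤ) ≤ c ∧ c ≤ Nat.sqrt X := by
    intro c hc
    have h3 : c.natAbs ≤ Nat.sqrt X := by
      rw [Nat.le_sqrt']
      have h5 : ((c.natAbs ^ 2 : ℕ) : ℤ) ≤ X := by
        push_cast
        rwa [sq_abs]
      exact_mod_cast h5
    omega
  have h4 : ((N z : ℕ) : ℤ) ≤ X := by exact_mod_cast h
  rw [mem_sq]
  exact ⟨h2 _ (by nlinarith [sq_nonneg z.im]), h2 _ (by nlinarith [sq_nonneg z.re])⟩

open scoped Classical in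
/-- the (normalized) Gaussian primes with norm at most `X` -/
noncomputable def PX (X : ℕ) : Finset GaussianInt :=
  @Finset.filter GaussianInt (fun p => Prime p ∧ normalize p = p ∧ N p ≤ X) (Classical.decPred _)
    (sq (Nat.sqrt X))

lemma mem_PX {X : ℕ} {p : GaussianInt} : p ∈ PX X ↔ Prime p ∧ normalize p = p ∧ N p ≤ X := by
  unfold PX
  simp only [Finset.mem_filter]
  constructor
  · exact fun h => h.2
  · exact fun h => ⟨mem_sq_of_N_le h.2.2, h⟩

lemma PX_dvd {X : ℕ} {p : GaussianInt} (hp : p ∈ PX X) : p ∣ ((primorial X : ℕ) : GaussianInt) := by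
  rw [mem_PX] at hp
  obtain ⟨hp, -, hX⟩ := hp
  have h1 : p ∣ ((N p : ℕ) : GaussianInt) := by
    have h2 : ((N p : ℕ) : GaussianInt) = p * star p := by
      rw [← Zsqrtd.norm_eq_mul_conj]
      have h3 : ((N p : ℕ) : ℤ) = p.norm := by
        unfold N
        exact GaussianInt.abs_natCast_norm p
      rw [← h3]
      simp
    rw [h2]
    exact dvd_mul_right _ _
  have h2 : ((N p : ℕ) : GaussianInt) = ((N p).primeFactorsList.map (fun q : ℕ => (q : GaussianInt))).prod := by
    conv_lhs => rw [← Nat.prod_primeFactorsList (N_pos hp.ne_zero).ne']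
    simp [Nat.cast_list_prod]
  rw [h2, hp.dvd_prod_iff] at h1
  obtain ⟨q, hq, hpq⟩ := h1
  rw [List.mem_map] at hq
  obtain ⟨q', hq', rfl⟩ := hq
  have hq1 := Nat.prime_of_mem_primeFactorsList hq'
  have hq2 : q' ≤ X := (Nat.le_of_mem_primeFactorsList hq').trans hX
  refine hpq.trans ?_
  exact_mod_cast Nat.cast_dvd_cast (α := GaussianInt) (hq1.dvd_primorial_iff.2 hq2)

lemma prod_PX_dvd (X : ℕ) : (∏ p ∈ PX X, p) ∣ ((primorial X : ℕ) : GaussianInt) := by
  refine Finset.prod_dvd_of_coprime ?_ (fun p hp => PX_dvd hp)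
  intro p hp q hq hne
  rw [mem_coe, mem_PX] at hp hq
  rw [Function.onFun, hp.1.irreducible.coprime_iff_not_dvd]
  intro hdvd
  have h1 : Associated p q := hp.1.irreducible.associated_of_dvd hq.1.irreducible hdvd
  have h2 := normalize_eq_normalize_iff_associated.2 h1
  rw [hp.2.1, hq.2.1] at h2
  exact hne h2

lemma theta_le (X : ℕ) : ∑ p ∈ PX X, Real.log (N p) ≤ 2 * X * Real.log 4 := by
  have h1 : ∑ p ∈ PX X, Real.log (N p) = Real.log ((∏ p ∈ PX X, N p : ℕ) : ℝ) := by
    push_cast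
    rw [Real.log_prod]
    intro p hp
    have := N_pos (mem_PX.1 hp).1.ne_zero
    positivity
  rw [h1, ← N_prod]
  have h2 : N (∏ p ∈ PX X, p) ∣ (primorial X) ^ 2 := by
    rw [← N_natCast]
    exact N_dvd (prod_PX_dvd X)
  have h3 : N (∏ p ∈ PX X, p) ≤ (4 ^ X) ^ 2 :=
    (Nat.le_of_dvd (pow_pos (primorial_pos X) 2) h2).trans (Nat.pow_le_pow_left (primorial_le_four_pow X) 2)
  have h4 : 0 < N (∏ p ∈ PX X, p) := by
    apply N_pos
    rw [prod_ne_zero_iff]
    intro p hp
    exact (mem_PX.1 hp).1.ne_zero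
  have h5 : (0 : ℝ) < (N (∏ p ∈ PX X, p) : ℝ) := by exact_mod_cast h4
  calc Real.log (N (∏ p ∈ PX X, p) : ℝ) ≤ Real.log (((4 : ℝ) ^ X) ^ 2) := by
        apply Real.log_le_log h5
        exact_mod_cast h3
    _ = 2 * X * Real.log 4 := by
        rw [Real.log_pow, Real.log_pow]
        push_cast
        ring

lemma log_four_le : Real.log 4 ≤ 3 / 2 := by
  have h1 : Real.log 4 = 2 * Real.log 2 := by
    rw [show (4 : ℝ) = 2 ^ 2 by norm_num, Real.log_pow]
    norm_num
  have h2 := Real.log_two_lt_d9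
  rw [h1]
  linarith

/-- the number of the Gaussian primes -/
lemma card_PX_le (X : ℕ) (hX : 1 ≤ X) : ((PX X).card : ℝ) * Real.log X ≤ 24 * X := by
  classical
  set Y := Nat.sqrt X with hY
  have hXr : (1 : ℝ) ≤ X := by exact_mod_cast hX
  have hlog : 0 ≤ Real.log X := Real.log_nonneg hXr
  -- the small primes
  have h1 : ((PX X).filter (fun p => N p ≤ Y)).card ≤ (2 * Nat.sqrt Y + 1) ^ 2 := by
    refine (card_le_card ?_).trans (card_sq (Nat.sqrt Y))
    intro p hp
    rw [mem_filter] at hp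
    exact mem_sq_of_N_le hp.2
  have hY1 : 1 ≤ Y := by
    rw [hY, Nat.le_sqrt']
    simpa using hX
  have h2 : (2 * Nat.sqrt Y + 1) ^ 2 ≤ 9 * Y := by
    have h3 := Nat.sqrt_le' Y
    have h4 : 1 ≤ Nat.sqrt Y := by
      rw [Nat.le_sqrt']
      simpa using hY1
    nlinarith
  have hYX : (Y : ℝ) ≤ Real.sqrt X := by
    rw [hY]
    exact Real.nat_sqrt_le_real_sqrt
  have h3 : Real.sqrt X * Real.log X ≤ 2 * X := by
    have h4 : Real.log X = 2 * Real.log (Real.sqrt X) := by
      rw [Real.log_sqrt (by linarith)]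
      ring
    have h5 : Real.log (Real.sqrt X) ≤ Real.sqrt X := by
      have h6 : 0 < Real.sqrt X := Real.sqrt_pos.2 (by linarith)
      linarith [Real.log_le_sub_one_of_pos h6]
    have h6 : Real.sqrt X * Real.sqrt X = X := Real.mul_self_sqrt (by linarith)
    rw [h4]
    nlinarith [Real.sqrt_nonneg X]
  have hsmall : (((PX X).filter (fun p => N p ≤ Y)).card : ℝ) * Real.log X ≤ 18 * X := by
    have h4 : (((PX X).filter (fun p => N p ≤ Y)).card : ℝ) ≤ 9 * Real.sqrt X := by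
      have h5 : (((PX X).filter (fun p => N p ≤ Y)).card : ℝ) ≤ 9 * Y := by exact_mod_cast h1.trans h2
      linarith
    calc _ ≤ 9 * Real.sqrt X * Real.log X := by gcongr
      _ ≤ 18 * X := by linarith
  -- the large primes
  have hlarge : (((PX X).filter (fun p => ¬ N p ≤ Y)).card : ℝ) * Real.log X ≤ 6 * X := by
    have h4 : ∀ p ∈ (PX X).filter (fun p => ¬ N p ≤ Y), Real.log X ≤ 2 * Real.log (N p) := by
      intro p hp
      rw [mem_filter, not_le] at hp
      have h5 : X < (N p) ^ 2 := by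
        have h6 : Y + 1 ≤ N p := hp.2
        have h7 := Nat.lt_succ_sqrt' X
        rw [← hY, Nat.succ_eq_add_one] at h7
        exact lt_of_lt_of_le h7 (Nat.pow_le_pow_left h6 2)
      have h6 : (X : ℝ) ≤ (N p : ℝ) ^ 2 := by exact_mod_cast h5.le
      calc Real.log X ≤ Real.log ((N p : ℝ) ^ 2) := Real.log_le_log (by linarith) h6
        _ = 2 * Real.log (N p) := by rw [Real.log_pow]; norm_num
    have h5 : (((PX X).filter (fun p => ¬ N p ≤ Y)).card : ℝ) * Real.log X ≤
        ∑ p ∈ (PX X).filter (fun p => ¬ N p ≤ Y), 2 * Real.log (N p) := by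
      rw [← nsmul_eq_mul]
      exact card_nsmul_le_sum _ _ _ h4
    have h6 : ∑ p ∈ (PX X).filter (fun p => ¬ N p ≤ Y), 2 * Real.log (N p) ≤ ∑ p ∈ PX X, 2 * Real.log (N p) := by
      apply sum_le_sum_of_subset_of_nonneg (filter_subset _ _)
      intro p hp _
      have h7 : 1 ≤ N p := N_pos (mem_PX.1 hp).1.ne_zero
      have h8 : (1 : ℝ) ≤ N p := by exact_mod_cast h7
      have := Real.log_nonneg h8
      positivity
    rw [← mul_sum, ← mul_sum] at h6
    rw [← mul_sum] at h5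
    have h7 := theta_le X
    have h8 := log_four_le
    have h9 : (X : ℝ) * Real.log 4 ≤ X * (3 / 2) := by gcongr
    linarith
  have hsplit : ((PX X).card : ℝ) = ((PX X).filter (fun p => N p ≤ Y)).card +
      ((PX X).filter (fun p => ¬ N p ≤ Y)).card := by
    exact_mod_cast (card_filter_add_card_filter_not (s := PX X) (fun p => N p ≤ Y)).symm
  rw [hsplit]
  linarith

end Q257.Gauss
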