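import Mathlib

/-!
# Averages of multiplicative functions on far shifted squares of Gaussian integers
-/

set_option autoImplicit false

namespace Q257.Gauss

/-- The square `Φ_N = ⌊N ^ (1 + ε)⌋ + Q_N`, where `Q_N` is the set of the Gaussian integers `a + b i` with
`|a| < N` and `|b| < N`. -/
noncomputable def Phi (ε : ℝ) (N : ℕ) : Finset GaussianInt :=
  (Finset.Ioo (-(N : ℤ)) N ×ˢ Finset.Ioo (-(N : ℤ)) N).image
    (fun ab : ℤ × ℤ => (⟨⌊(N : ℝ) ^ (1 + ε)⌋ + ab.1, ab.2⟩ : GaussianInt))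

/-- The average of `f` over `Φ_N`. -/
noncomputable def avg (ε : ℝ) (f : GaussianInt → ℝ) (N : ℕ) : ℝ :=
  (∑ n ∈ Phi ε N, f n) / ((Phi ε N).card : ℝ)

/-- `f` is completely multiplicative on the nonzero Gaussian integers. -/
def IsCompletelyMultiplicative (f : GaussianInt → ℝ) : Prop :=
  ∀ m n : GaussianInt, m ≠ 0 → n ≠ 0 → f (m * n) = f m * f n

/-- `f` is bounded on the nonzero Gaussian integers. -/
def IsBdd (f : GaussianInt → ℝ) : Prop := ∃ C : ℝ, ∀ n : GaussianInt, n ≠ 0 → |f n| ≤ C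

end Q257.Gauss
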