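import Mathlib
import Pool.Agent.Q257.Gauss.Cheb

/-!
# Sums over the prime powers
-/

set_option autoImplicit false

open Finset UniqueFactorizationMonoid

namespace Q257.Gauss

/-- the pairs `(p, k)` with `p` a normalized Gaussian prime, `1 ≤ k` and `N p ^ k ≤ X` -/
noncomputable def J (X : ℕ) : Finset (GaussianInt × ℕ) :=
  (PX X ×ˢ Icc 1 (Nat.log 2 X)).filter (fun pk => N pk.1 ^ pk.2 ≤ X)

lemma mem_J {X : ℕ} {pk : GaussianInt × ℕ} :
    pk ∈ J X ↔ Prime pk.1 ∧ normalize pk.1 = pk.1 ∧ 1 ≤ pk.2 ∧ N pk.1 ^ pk.2 ≤ X := by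
  unfold J
  rw [mem_filter, mem_product, mem_PX, mem_Icc]
  constructor
  · rintro ⟨⟨h1, h2⟩, h3⟩
    exact ⟨h1.1, h1.2.1, h2.1, h3⟩
  · rintro ⟨h1, h2, h3, h4⟩
    have h5 := two_le_N h1
    refine ⟨⟨⟨h1, h2, ?_⟩, h3, ?_⟩, h4⟩
    · exact (Nat.le_self_pow (by omega) _).trans h4
    · have h6 : 2 ^ pk.2 ≤ X := (Nat.pow_le_pow_left h5 _).trans h4
      have h7 : X ≠ 0 := by
        have : 0 < 2 ^ pk.2 := by positivity
        omega
      exact Nat.le_log_of_pow_le (by norm_num) h6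

lemma J_mono {X Y : ℕ} (h : X ≤ Y) : J X ⊆ J Y := by
  intro pk hpk
  rw [mem_J] at hpk ⊢
  exact ⟨hpk.1, hpk.2.1, hpk.2.2.1, hpk.2.2.2.trans h⟩

/-- the sum of `log (N p)` over the prime powers -/
noncomputable def psi (X : ℕ) : ℝ := ∑ pk ∈ J X, Real.log (N pk.1)

lemma log_N_nonneg (p : GaussianInt) : 0 ≤ Real.log (N p) := Real.log_natCast_nonneg _

lemma psi_le (X : ℕ) (hX : 1 ≤ X) : psi X ≤ 24 * X := by
  have h1 : psi X = ∑ p ∈ PX X, ∑ k ∈ (Icc 1 (Nat.log 2 X)).filter (fun k => N p ^ k ≤ X), Real.log (N p) := by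
    unfold psi J
    rw [sum_filter, sum_product]
    refine sum_congr rfl fun p _ => ?_
    rw [sum_filter]
  have h2 : ∀ p ∈ PX X, ∑ k ∈ (Icc 1 (Nat.log 2 X)).filter (fun k => N p ^ k ≤ X), Real.log (N p) ≤ Real.log X := by
    intro p hp
    rw [mem_PX] at hp
    have h3 := two_le_N hp.1
    have h4 : ((Icc 1 (Nat.log 2 X)).filter (fun k => N p ^ k ≤ X)).card ≤ Nat.log (N p) X := by
      have h5 : (Icc 1 (Nat.log 2 X)).filter (fun k => N p ^ k ≤ X) ⊆ Icc 1 (Nat.log (N p) X) := by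
        intro k hk
        rw [mem_filter, mem_Icc] at hk
        rw [mem_Icc]
        exact ⟨hk.1.1, Nat.le_log_of_pow_le (by omega) hk.2⟩
      refine (card_le_card h5).trans ?_
      rw [Nat.card_Icc]
      omega
    rw [sum_const, nsmul_eq_mul]
    have h6 : (N p) ^ Nat.log (N p) X ≤ X := Nat.pow_log_le_self _ (by omega)
    have h7 : ((N p : ℝ)) ^ Nat.log (N p) X ≤ X := by exact_mod_cast h6
    have h8 : (0 : ℝ) < (N p : ℝ) := by
      have : 0 < N p := by omega
      exact_mod_cast this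
    calc _ ≤ (Nat.log (N p) X : ℝ) * Real.log (N p) := by
          have h9 := log_N_nonneg p
          have h10 : (((Icc 1 (Nat.log 2 X)).filter (fun k => N p ^ k ≤ X)).card : ℝ) ≤ Nat.log (N p) X := by
            exact_mod_cast h4
          gcongr
      _ = Real.log ((N p : ℝ) ^ Nat.log (N p) X) := by rw [Real.log_pow]
      _ ≤ Real.log X := Real.log_le_log (by positivity) h7
  rw [h1]
  refine (sum_le_sum h2).trans ?_
  rw [sum_const, nsmul_eq_mul]
  exact card_PX_le X hX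

/-- the sum of `log (N p) / N p ^ k` over the prime powers -/
noncomputable def MM (X : ℕ) : ℝ := ∑ pk ∈ J X, Real.log (N pk.1) / (N pk.1 : ℝ) ^ pk.2

lemma MM_le (X : ℕ) : MM X ≤ 48 * (Nat.log 2 X + 1) := by
  have h1 : MM X ≤ ∑ pk ∈ J X, ∑ j ∈ range (Nat.log 2 X + 1),
      if pk ∈ J (2 ^ (j + 1)) ∧ Nat.log 2 (N pk.1 ^ pk.2) = j then Real.log (N pk.1) / 2 ^ j else 0 := by
    unfold MM
    refine sum_le_sum fun pk hpk => ?_
    have hpk' := mem_J.1 hpk
    set D := N pk.1 ^ pk.2 with hD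
    have hN := two_le_N hpk'.1
    have hDpos : 0 < D := by rw [hD]; positivity
    set j := Nat.log 2 D with hj
    have hjX : j ∈ range (Nat.log 2 X + 1) := by
      rw [mem_range, hj]
      exact Nat.lt_succ_of_le (Nat.log_mono_right hpk'.2.2.2)
    have h2 : pk ∈ J (2 ^ (j + 1)) := by
      rw [mem_J]
      exact ⟨hpk'.1, hpk'.2.1, hpk'.2.2.1, (Nat.lt_pow_succ_log_self (by norm_num) D).le⟩
    have h3 : (2 : ℝ) ^ j ≤ (N pk.1 : ℝ) ^ pk.2 := by
      have h4 : 2 ^ j ≤ D := Nat.pow_log_le_self 2 hDpos.ne'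
      exact_mod_cast h4
    calc Real.log (N pk.1) / (N pk.1 : ℝ) ^ pk.2 ≤ Real.log (N pk.1) / 2 ^ j := by
          have := log_N_nonneg pk.1
          gcongr
      _ = if pk ∈ J (2 ^ (j + 1)) ∧ Nat.log 2 D = j then Real.log (N pk.1) / 2 ^ j else 0 := by
          rw [if_pos ⟨h2, rfl⟩]
      _ ≤ _ := by
          refine single_le_sum (f := fun j => if pk ∈ J (2 ^ (j + 1)) ∧ Nat.log 2 D = j then
            Real.log (N pk.1) / 2 ^ j else 0) (fun i _ => ?_) hjX
          have := log_N_nonneg pk.1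
          split_ifs <;> positivity
  refine h1.trans ?_
  rw [sum_comm]
  have h2 : ∀ j ∈ range (Nat.log 2 X + 1), ∑ pk ∈ J X,
      (if pk ∈ J (2 ^ (j + 1)) ∧ Nat.log 2 (N pk.1 ^ pk.2) = j then Real.log (N pk.1) / 2 ^ j else 0) ≤ 48 := by
    intro j _
    calc _ ≤ ∑ pk ∈ J (2 ^ (j + 1)), Real.log (N pk.1) / 2 ^ j := by
          rw [← sum_filter]
          apply sum_le_sum_of_subset_of_nonneg
          · intro pk hpk
            rw [mem_filter] at hpk
            exact hpk.2.1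
          · intro pk _ _
            have := log_N_nonneg pk.1
            positivity
      _ = psi (2 ^ (j + 1)) / 2 ^ j := by
          unfold psi
          rw [sum_div]
      _ ≤ 24 * (2 ^ (j + 1) : ℕ) / 2 ^ j := by
          have := psi_le (2 ^ (j + 1)) Nat.one_le_two_pow
          gcongr
      _ = 48 := by
          push_cast
          rw [pow_succ]
          field_simp
          norm_num
  refine (sum_le_sum h2).trans ?_
  rw [sum_const, card_range, nsmul_eq_mul]
  push_cast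
  linarith

end Q257.Gauss
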