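import Mathlib
import Pool.Agent.Q257.Gauss.Basic

/-!
# Counting the multiples of a Gaussian integer in a box
-/

set_option autoImplicit false

open Finset

namespace Q257.Gauss

/-- the box `[x, x + a) × [y, y + b)` -/
noncomputable def box (x : ℤ) (a : ℕ) (y : ℤ) (b : ℕ) : Finset GaussianInt :=
  (Ico x (x + a) ×ˢ Ico y (y + b)).image (fun ab => (⟨ab.1, ab.2⟩ : GaussianInt))

lemma mem_box {x : ℤ} {a : ℕ} {y : ℤ} {b : ℕ} {z : GaussianInt} :
    z ∈ box x a y b ↔ (x ≤ z.re ∧ z.re < x + a) ∧ (y ≤ z.im ∧ z.im < y + b) := by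
  unfold box
  simp only [mem_image, mem_product, mem_Ico, Prod.exists]
  constructor
  · rintro ⟨a, b, h, rfl⟩
    exact h
  · intro h
    exact ⟨z.re, z.im, h, by ext <;> rfl⟩

lemma card_box (x : ℤ) (a : ℕ) (y : ℤ) (b : ℕ) : (box x a y b).card = a * b := by
  unfold box
  rw [card_image_of_injective, card_product, Int.card_Ico, Int.card_Ico]
  · congr 1 <;> omega
  · rintro ⟨a, b⟩ ⟨c, d⟩ h
    simp only [Zsqrtd.mk.injEq] at h
    rw [h.1, h.2]

open scoped Classical in
/-- the number of the multiples of `d` in `S` -/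
noncomputable def cnt (S : Finset GaussianInt) (d : GaussianInt) : ℕ := (S.filter (fun n => d ∣ n)).card

/-- the side of a square which contains at most one multiple of `d` -/
def side (D : ℕ) : ℕ := Nat.sqrt ((D - 1) / 2) + 1

lemma side_pos (D : ℕ) : 0 < side D := Nat.succ_pos _

lemma side_sq_le (D : ℕ) (hD : 1 ≤ D) : 2 * (side D - 1) ^ 2 < D := by
  unfold side
  rw [Nat.add_sub_cancel]
  have := Nat.sqrt_le' ((D - 1) / 2)
  omega

lemma le_side_sq (D : ℕ) : D ≤ 2 * (side D) ^ 2 := by
  unfold side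
  have := Nat.lt_succ_sqrt' ((D - 1) / 2)
  rw [Nat.succ_eq_add_one] at this
  omega

lemma sqrt_le_side (D : ℕ) : Nat.sqrt D ≤ 2 * side D := by
  rw [← Nat.sqrt_eq' (2 * side D)]
  apply Nat.sqrt_le_sqrt
  have := le_side_sq D
  nlinarith

/-- two multiples of `d` which are close are equal -/
lemma eq_of_close {d z z' : GaussianInt} (h1 : d ∣ z) (h2 : d ∣ z') (h : N (z - z') < N d) : z = z' := by
  by_contra hne
  have h3 : z - z' ≠ 0 := sub_ne_zero.2 hne
  have h4 := N_dvd (dvd_sub h1 h2)
  exact absurd (Nat.le_of_dvd (N_pos h3) h4) (not_le.2 h)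

lemma pack {d : GaussianInt} (hd : d ≠ 0) (x : ℤ) (a : ℕ) (y : ℤ) (b : ℕ) :
    cnt (box x a y b) d ≤ (a / side (N d) + 1) * (b / side (N d) + 1) := by
  classical
  set r := side (N d) with hr
  have hr0 : 0 < r := side_pos _
  unfold cnt
  have h1 : ∀ z ∈ (box x a y b).filter (fun n => d ∣ n),
      (((z.re - x) / r).toNat, ((z.im - y) / r).toNat) ∈ range (a / r + 1) ×ˢ range (b / r + 1) := by
    intro z hz
    rw [mem_filter, mem_box] at hz
    obtain ⟨⟨⟨h1, h2⟩, h3, h4⟩, -⟩ := hz
    have key : ∀ (u : ℤ) (c : ℕ), 0 ≤ u → u < c → (u / r).toNat < c / r + 1 := by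
      intro u c hu0 huc
      lift u to ℕ using hu0
      have h5 : ((u : ℤ) / (r : ℤ)).toNat = u / r := by
        rw [← Int.natCast_div, Int.toNat_natCast]
      rw [h5]
      have h6 : u ≤ c := by omega
      exact Nat.lt_succ_of_le (Nat.div_le_div_right h6)
    rw [mem_product, mem_range, mem_range]
    exact ⟨key _ _ (by omega) (by omega), key _ _ (by omega) (by omega)⟩
  have h2 := card_le_card_of_injOn (s := (box x a y b).filter (fun n => d ∣ n))
    (t := range (a / r + 1) ×ˢ range (b / r + 1))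
    (fun z => (((z.re - x) / r).toNat, ((z.im - y) / r).toNat)) (fun z hz => h1 z hz) ?_
  · rw [card_product, card_range, card_range] at h2
    exact h2
  · intro z hz z' hz' heq
    rw [mem_coe, mem_filter, mem_box] at hz hz'
    simp only [Prod.mk.injEq] at heq
    apply eq_of_close hz.2 hz'.2
    have key : ∀ u v : ℤ, 0 ≤ u → 0 ≤ v → (u / r).toNat = (v / r).toNat → |u - v| ≤ r - 1 := by
      intro u v hu hv huv
      have hr' : (0 : ℤ) < r := by exact_mod_cast hr0
      have h3 : 0 ≤ u / r := Int.ediv_nonneg hu hr'.le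
      have h4 : 0 ≤ v / r := Int.ediv_nonneg hv hr'.le
      have h5 : u / r = v / r := by omega
      have h6 := Int.emod_add_mul_ediv u r
      have h7 := Int.emod_add_mul_ediv v r
      have h8 := Int.emod_nonneg u hr'.ne'
      have h9 := Int.emod_nonneg v hr'.ne'
      have h10 := Int.emod_lt_of_pos u hr'
      have h11 := Int.emod_lt_of_pos v hr'
      rw [h5] at h6
      rw [abs_le]
      constructor <;> linarith
    have k1 := key (z.re - x) (z'.re - x) (by omega) (by omega) heq.1
    have k2 := key (z.im - y) (z'.im - y) (by omega) (by omega) heq.2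
    rw [show z.re - x - (z'.re - x) = z.re - z'.re by ring] at k1
    rw [show z.im - y - (z'.im - y) = z.im - z'.im by ring] at k2
    have h3 := N_cast (z - z')
    rw [Zsqrtd.re_sub, Zsqrtd.im_sub] at h3
    have h4 := side_sq_le (N d) (N_pos hd)
    rw [← hr] at h4
    have h5 : ((r - 1 : ℕ) : ℤ) = (r : ℤ) - 1 := by omega
    have h6 : (2 : ℤ) * ((r : ℤ) - 1) ^ 2 < N d := by
      rw [← h5]
      exact_mod_cast h4
    have h7 : (z.re - z'.re) ^ 2 ≤ ((r : ℤ) - 1) ^ 2 := by
      rw [← sq_abs]
      exact pow_le_pow_left₀ (abs_nonneg _) k1 2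
    have h8 : (z.im - z'.im) ^ 2 ≤ ((r : ℤ) - 1) ^ 2 := by
      rw [← sq_abs]
      exact pow_le_pow_left₀ (abs_nonneg _) k2 2
    have h9 : ((N (z - z') : ℕ) : ℤ) < N d := by
      rw [h3]
      linarith
    exact_mod_cast h9

/-- translating a square changes the number of the multiples of `d` by little -/
lemma translate {d : GaussianInt} (hd : d ≠ 0) (x y : ℤ) (v : GaussianInt) (L : ℕ) :
    cnt (box (x + v.re) L (y + v.im) L) d ≤ cnt (box x L y L) d + 12 * (L / side (N d) + 5) := by
  classical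
  set w := v % d with hw
  set s := Nat.sqrt (N d) with hs
  set r := side (N d) with hr
  have hr0 : 0 < r := side_pos _
  have hsr : s ≤ 2 * r := sqrt_le_side _
  -- the size of the remainder
  have hwN : N w < N d := GaussianInt.natAbs_norm_mod_lt v hd
  have hwb : ∀ c : ℤ, c ^ 2 ≤ N w → -(s : ℤ) ≤ c ∧ c ≤ s := by
    intro c hc
    have h3 : c.natAbs ≤ s := by
      rw [hs, Nat.le_sqrt']
      have h5 : ((c.natAbs ^ 2 : ℕ) : ℤ) ≤ N d := by
        push_cast
        rw [sq_abs]
        have : ((N w : ℕ) : ℤ) < N d := by exact_mod_cast hwN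
        linarith
      exact_mod_cast h5
    omega
  have hwc := N_cast w
  have hw1 := hwb w.re (by nlinarith [sq_nonneg w.im])
  have hw2 := hwb w.im (by nlinarith [sq_nonneg w.re])
  -- shift by a multiple of `d`
  have h1 : cnt (box (x + v.re) L (y + v.im) L) d ≤ cnt (box (x + w.re) L (y + w.im) L) d := by
    unfold cnt
    apply card_le_card_of_injOn (fun z => z - d * (v / d))
    · intro z hz
      rw [coe_filter, Set.mem_ofPred_eq, mem_box] at hz
      rw [mem_coe, mem_filter, mem_box]
      have h2 : d * (v / d) = v - w := by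
        rw [hw]
        have := EuclideanDomain.div_add_mod v d
        linear_combination this
      have h3 : (z - d * (v / d)).re = z.re - v.re + w.re := by
        rw [h2, Zsqrtd.re_sub, Zsqrtd.re_sub]
        ring
      have h4 : (z - d * (v / d)).im = z.im - v.im + w.im := by
        rw [h2, Zsqrtd.im_sub, Zsqrtd.im_sub]
        ring
      rw [h3, h4]
      refine ⟨⟨⟨?_, ?_⟩, ?_, ?_⟩, dvd_sub hz.2 (dvd_mul_right _ _)⟩ <;> omega
    · intro z _ z' _ h
      simpa using h
  -- the four strips
  have h2 : box (x + w.re) L (y + w.im) L ⊆ box x L y L ∪ (box (x - s) s (y - s) (L + 2 * s) ∪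
      (box (x + L) s (y - s) (L + 2 * s) ∪ (box (x - s) (L + 2 * s) (y - s) s ∪
        box (x - s) (L + 2 * s) (y + L) s))) := by
    intro z hz
    simp only [mem_union, mem_box] at hz ⊢
    push_cast
    omega
  have h3 : cnt (box (x + w.re) L (y + w.im) L) d ≤ cnt (box x L y L) d +
      (cnt (box (x - s) s (y - s) (L + 2 * s)) d + (cnt (box (x + L) s (y - s) (L + 2 * s)) d +
        (cnt (box (x - s) (L + 2 * s) (y - s) s) d + cnt (box (x - s) (L + 2 * s) (y + L) s) d))) := by
    unfold cnt
    refine (card_le_card (filter_subset_filter _ h2)).trans ?_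
    simp only [filter_union]
    refine (card_union_le _ _).trans (Nat.add_le_add_left ?_ _)
    refine (card_union_le _ _).trans (Nat.add_le_add_left ?_ _)
    refine (card_union_le _ _).trans (Nat.add_le_add_left ?_ _)
    exact card_union_le _ _
  have hs3 : s / r + 1 ≤ 3 := by
    have : s / r ≤ 2 := Nat.div_le_of_le_mul (by linarith)
    omega
  have hL5 : (L + 2 * s) / r + 1 ≤ L / r + 5 := by
    have h4 : (L + 2 * s) / r ≤ (L + 4 * r) / r := Nat.div_le_div_right (by omega)
    rw [Nat.add_mul_div_right _ _ hr0] at h4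
    omega
  have p1 := (pack hd (x - s) s (y - s) (L + 2 * s)).trans (Nat.mul_le_mul hs3 hL5)
  have p2 := (pack hd (x + L) s (y - s) (L + 2 * s)).trans (Nat.mul_le_mul hs3 hL5)
  have p3 := (pack hd (x - s) (L + 2 * s) (y - s) s).trans (Nat.mul_le_mul hL5 hs3)
  have p4 := (pack hd (x - s) (L + 2 * s) (y + L) s).trans (Nat.mul_le_mul hL5 hs3)
  omega

end Q257.Gauss
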