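import Mathlib
import Pool.Agent.Q257.Gauss.JSum
import Pool.Agent.Q257.Gauss.Pack

/-!
# The smooth Gaussian integers in a square
-/

set_option autoImplicit false

open Finset UniqueFactorizationMonoid

namespace Q257.Gauss

open scoped Classical in
/-- the part of `log (N n)` which comes from the prime powers with norm at most `X` -/
noncomputable def SX (X : ℕ) (n : GaussianInt) : ℝ :=
  ∑ pk ∈ J X, if pk.1 ^ pk.2 ∣ n then Real.log (N pk.1) else 0

lemma SX_eq (X : ℕ) {n : GaussianInt} (hn : n ≠ 0) :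
    SX X n = ∑ p ∈ PX X, (((Icc 1 (Nat.log 2 X)).filter
      (fun k => N p ^ k ≤ X ∧ k ≤ (normalizedFactors n).count p)).card : ℝ) * Real.log (N p) := by
  unfold SX J
  rw [sum_filter, sum_product]
  refine sum_congr rfl fun p hp => ?_
  rw [mem_PX] at hp
  rw [← nsmul_eq_mul, ← sum_const, sum_filter]
  refine sum_congr rfl fun k _ => ?_
  have h := pow_dvd_iff hp.1 hp.2.1 hn k
  by_cases h1 : N p ^ k ≤ X
  · by_cases h2 : k ≤ (normalizedFactors n).count p
    · rw [if_pos h1, if_pos (h.2 h2), if_pos ⟨h1, h2⟩]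
    · rw [if_pos h1, if_neg (fun hh => h2 (h.1 hh)), if_neg (fun hh => h2 hh.2)]
  · rw [if_neg h1, if_neg (fun hh => h1 hh.1)]

lemma count_le_card (X : ℕ) (p n : GaussianInt) :
    (((Icc 1 (Nat.log 2 X)).filter (fun k => N p ^ k ≤ X ∧ k ≤ (normalizedFactors n).count p)).card) ≤
      (normalizedFactors n).count p := by
  have h : (Icc 1 (Nat.log 2 X)).filter (fun k => N p ^ k ≤ X ∧ k ≤ (normalizedFactors n).count p) ⊆
      Icc 1 ((normalizedFactors n).count p) := by
    intro k hk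
    rw [mem_filter, mem_Icc] at hk
    rw [mem_Icc]
    exact ⟨hk.1.1, hk.2.2⟩
  refine (card_le_card h).trans ?_
  rw [Nat.card_Icc]
  omega

/-- the sum over the small primes -/
lemma sum_PX_le (X : ℕ) {n : GaussianInt} (hn : n ≠ 0) :
    ∑ p ∈ PX X, ((normalizedFactors n).count p : ℝ) * Real.log (N p) ≤ Real.log (N n) := by
  rw [log_N hn]
  have h1 : ∑ p ∈ PX X, ((normalizedFactors n).count p : ℝ) * Real.log (N p) =
      ∑ p ∈ (PX X).filter (fun p => p ∈ (normalizedFactors n).toFinset),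
        ((normalizedFactors n).count p : ℝ) * Real.log (N p) := by
    rw [sum_filter_of_ne]
    intro p _ hne
    rw [Multiset.mem_toFinset]
    by_contra hcon
    rw [Multiset.count_eq_zero_of_notMem hcon] at hne
    simp at hne
  rw [h1]
  apply sum_le_sum_of_subset_of_nonneg
  · intro p hp
    exact (mem_filter.1 hp).2
  · intro p _ _
    have := log_N_nonneg p
    positivity

lemma SX_le (X : ℕ) {n : GaussianInt} (hn : n ≠ 0) : SX X n ≤ Real.log (N n) := by
  rw [SX_eq X hn]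
  refine le_trans (sum_le_sum fun p _ => ?_) (sum_PX_le X hn)
  have h := log_N_nonneg p
  have h2 : ((((Icc 1 (Nat.log 2 X)).filter (fun k => N p ^ k ≤ X ∧ k ≤ (normalizedFactors n).count p)).card : ℕ) : ℝ) ≤
      ((normalizedFactors n).count p : ℝ) := by exact_mod_cast count_le_card X p n
  gcongr

/-- the decomposition for a smooth number -/
lemma smooth_le (X : ℕ) {n : GaussianInt} (hn : n ≠ 0) (hs : ∀ p, Prime p → p ∣ n → N p ≤ X) :
    Real.log (N n) ≤ SX X n + ∑ p ∈ PX X, if X < N p ^ ((normalizedFactors n).count p) then Real.log (N n) else 0 := by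
  have hX : ∀ p, Prime p → p ∣ n → 1 ≤ X := fun p hp hpn =>
    le_trans (N_pos hp.ne_zero) (hs p hp hpn)
  have h1 : Real.log (N n) ≤ ∑ p ∈ PX X, ((normalizedFactors n).count p : ℝ) * Real.log (N p) := by
    rw [log_N hn]
    apply sum_le_sum_of_subset_of_nonneg
    · intro p hp
      have hp' := prime_of_normalized_factor p (Multiset.mem_toFinset.1 hp)
      rw [mem_PX]
      exact ⟨hp', normalize_normalized_factor p (Multiset.mem_toFinset.1 hp),
        hs p hp' (dvd_of_mem_normalizedFactors (Multiset.mem_toFinset.1 hp))⟩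
    · intro p _ _
      have := log_N_nonneg p
      positivity
  refine h1.trans ?_
  rw [SX_eq X hn, ← sum_add_distrib]
  refine sum_le_sum fun p hp => ?_
  rw [mem_PX] at hp
  have h2N := two_le_N hp.1
  set c := (normalizedFactors n).count p with hc
  have hlog := log_N_nonneg p
  by_cases h2 : X < N p ^ c
  · rw [if_pos h2]
    have h3 : (c : ℝ) * Real.log (N p) ≤ Real.log (N n) := by
      by_cases hc0 : c = 0
      · rw [hc0]
        simp only [Nat.cast_zero, zero_mul]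
        exact log_N_nonneg n
      · have hpn : p ∣ n := by
          have := (pow_dvd_iff hp.1 hp.2.1 hn 1).2 (by omega)
          rwa [pow_one] at this
        rw [log_N hn]
        refine single_le_sum (f := fun p => ((normalizedFactors n).count p : ℝ) * Real.log (N p))
          (fun q _ => ?_) ((mem_factors_iff hp.1 hp.2.1 hn).2 hpn)
        have := log_N_nonneg q
        positivity
    have h4 : 0 ≤ (((Icc 1 (Nat.log 2 X)).filter (fun k => N p ^ k ≤ X ∧ k ≤ c)).card : ℝ) * Real.log (N p) := by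
      positivity
    linarith
  · rw [if_neg h2, add_zero]
    push Not at h2
    have h3 : c ≤ ((Icc 1 (Nat.log 2 X)).filter (fun k => N p ^ k ≤ X ∧ k ≤ c)).card := by
      have h4 : Icc 1 c ⊆ (Icc 1 (Nat.log 2 X)).filter (fun k => N p ^ k ≤ X ∧ k ≤ c) := by
        intro k hk
        rw [mem_Icc] at hk
        have h5 : N p ^ k ≤ X := (Nat.pow_le_pow_right (by omega) hk.2).trans h2
        have h6 : 2 ^ k ≤ X := (Nat.pow_le_pow_left h2N k).trans h5
        rw [mem_filter, mem_Icc]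
        exact ⟨⟨hk.1, Nat.le_log_of_pow_le (by norm_num) h6⟩, h5, hk.2⟩
      have := card_le_card h4
      rw [Nat.card_Icc] at this
      omega
    have h4 : (c : ℝ) ≤ (((Icc 1 (Nat.log 2 X)).filter (fun k => N p ^ k ≤ X ∧ k ≤ c)).card : ℝ) := by
      exact_mod_cast h3
    gcongr

lemma sum_SX (X : ℕ) (S : Finset GaussianInt) :
    ∑ n ∈ S, SX X n = ∑ pk ∈ J X, (cnt S (pk.1 ^ pk.2) : ℝ) * Real.log (N pk.1) := by
  classical
  unfold SX cnt
  rw [sum_comm]
  refine sum_congr rfl fun pk _ => ?_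
  rw [← sum_filter, sum_const, nsmul_eq_mul]

/-- two elements of a square with side `L = 2 M - 1` -/
lemma N_sub_lt {x y : ℤ} {M : ℕ} {z z' : GaussianInt} (hM : 1 ≤ M)
    (hz : z ∈ box x (2 * M - 1) y (2 * M - 1)) (hz' : z' ∈ box x (2 * M - 1) y (2 * M - 1)) :
    N (z - z') < 8 * M ^ 2 := by
  rw [mem_box] at hz hz'
  have h1 := N_cast (z - z')
  rw [Zsqrtd.re_sub, Zsqrtd.im_sub] at h1
  have hL : (((2 * M - 1 : ℕ)) : ℤ) = 2 * M - 1 := by omega
  rw [hL] at hz hz'
  have h2 : |z.re - z'.re| ≤ 2 * M - 2 := by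
    rw [abs_le]
    constructor <;> linarith [hz.1.1, hz.1.2, hz'.1.1, hz'.1.2]
  have h3 : |z.im - z'.im| ≤ 2 * M - 2 := by
    rw [abs_le]
    constructor <;> linarith [hz.2.1, hz.2.2, hz'.2.1, hz'.2.2]
  have h4 : (z.re - z'.re) ^ 2 ≤ (2 * (M : ℤ) - 2) ^ 2 := by
    rw [← sq_abs]
    exact pow_le_pow_left₀ (abs_nonneg _) h2 2
  have h5 : (z.im - z'.im) ^ 2 ≤ (2 * (M : ℤ) - 2) ^ 2 := by
    rw [← sq_abs]
    exact pow_le_pow_left₀ (abs_nonneg _) h3 2
  have h6 : (1 : ℤ) ≤ M := by exact_mod_cast hM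
  have h7 : ((N (z - z') : ℕ) : ℤ) < 8 * M ^ 2 := by
    rw [h1]
    nlinarith
  exact_mod_cast h7

/-- the exceptional sum -/
lemma sum_exc {x y : ℤ} {M : ℕ} (hM : 1 ≤ M) (R : ℝ) (hR : 0 ≤ R) {p : GaussianInt} (hp : Prime p)
    (hnorm : normalize p = p) (S : Finset GaussianInt) (hS : S ⊆ box x (2 * M - 1) y (2 * M - 1))
    (h0 : ∀ n ∈ S, n ≠ 0) (hlog : ∀ n ∈ S, Real.log (N n) ≤ R) :
    ∑ n ∈ S, (if 8 * M ^ 2 < N p ^ ((normalizedFactors n).count p) then Real.log (N n) else 0) ≤ R := by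
  rw [← sum_filter]
  set T := S.filter (fun n => 8 * M ^ 2 < N p ^ ((normalizedFactors n).count p)) with hT
  have hcard : T.card ≤ 1 := by
    rw [card_le_one]
    intro n hn n' hn'
    rw [hT, mem_filter] at hn hn'
    set k := min ((normalizedFactors n).count p) ((normalizedFactors n').count p) with hk
    have h2N := two_le_N hp
    have h1 : 8 * M ^ 2 < N p ^ k := by
      rcases min_choice ((normalizedFactors n).count p) ((normalizedFactors n').count p) with h | h
      · rw [hk, h]; exact hn.2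
      · rw [hk, h]; exact hn'.2
    have h2 : p ^ k ∣ n := (pow_dvd_iff hp hnorm (h0 n hn.1) k).2 (min_le_left _ _)
    have h3 : p ^ k ∣ n' := (pow_dvd_iff hp hnorm (h0 n' hn'.1) k).2 (min_le_right _ _)
    apply eq_of_close h2 h3
    rw [N_pow]
    exact (N_sub_lt hM (hS hn.1) (hS hn'.1)).trans h1
  calc ∑ n ∈ T, Real.log (N n) ≤ ∑ n ∈ T, R := sum_le_sum fun n hn => hlog n (mem_filter.1 hn).1
    _ = T.card * R := by rw [sum_const, nsmul_eq_mul]
    _ ≤ 1 * R := by
        have : (T.card : ℝ) ≤ 1 := by exact_mod_cast hcard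
        gcongr
    _ = R := one_mul R

open scoped Classical in
/-- the smooth elements -/
noncomputable def smooth (X : ℕ) (S : Finset GaussianInt) : Finset GaussianInt :=
  S.filter (fun n => ∀ p, Prime p → p ∣ n → N p ≤ X)

/-- The number of the smooth elements of a square. -/
theorem mass {M : ℕ} (hM : 1 ≤ M) (v : GaussianInt) (m R : ℝ) (hm : 0 ≤ m)
    (h0 : ∀ n ∈ box (1 + v.re) (2 * M - 1) (1 - M + v.im) (2 * M - 1), n ≠ 0)
    (hmR : ∀ n ∈ box (1 + v.re) (2 * M - 1) (1 - M + v.im) (2 * M - 1), m ≤ Real.log (N n) ∧ Real.log (N n) ≤ R)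
    (τ : ℝ) (hτ : 0 < τ) :
    ((smooth (8 * M ^ 2) (box (1 + v.re) (2 * M - 1) (1 - M + v.im) (2 * M - 1))).card : ℝ) * m ≤
      ((2 * M - 1 : ℕ) : ℝ) ^ 2 * Real.log (5 * M ^ 2) +
        12 * (2 * τ * ((2 * M - 1 : ℕ) : ℝ) ^ 2 * MM (8 * M ^ 2) + (1 / τ + 5) * psi (8 * M ^ 2)) +
        (PX (8 * M ^ 2)).card * R := by
  classical
  set L := 2 * M - 1 with hL
  set X := 8 * M ^ 2 with hX
  set Φ := box (1 + v.re) L (1 - M + v.im) L with hΦ
  set B := box 1 L (1 - M) L with hB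
  -- the base square
  have hB0 : ∀ n ∈ B, n ≠ 0 := by
    intro n hn h
    rw [hB, mem_box, h] at hn
    simp at hn
  have hBlog : ∀ n ∈ B, Real.log (N n) ≤ Real.log (5 * M ^ 2) := by
    intro n hn
    have h1 : 0 < N n := N_pos (hB0 n hn)
    apply Real.log_le_log (by exact_mod_cast h1)
    rw [hB, mem_box] at hn
    have h2 := N_cast n
    have hLz : ((L : ℕ) : ℤ) = 2 * M - 1 := by omega
    rw [hLz] at hn
    have h3 : n.re ^ 2 ≤ (2 * (M : ℤ)) ^ 2 := by
      apply pow_le_pow_left₀ <;> linarith [hn.1.1, hn.1.2]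
    have h4 : n.im ^ 2 ≤ (M : ℤ) ^ 2 := by
      rw [← sq_abs]
      apply pow_le_pow_left₀ (abs_nonneg _)
      rw [abs_le]
      constructor <;> linarith [hn.2.1, hn.2.2]
    have h5 : ((N n : ℕ) : ℤ) ≤ 5 * M ^ 2 := by
      rw [h2]
      linarith
    exact_mod_cast h5
  have hBcard : B.card = L ^ 2 := by rw [hB, card_box]; ring
  -- the sum over the base square
  have h1 : ∑ pk ∈ J X, (cnt B (pk.1 ^ pk.2) : ℝ) * Real.log (N pk.1) ≤ (L : ℝ) ^ 2 * Real.log (5 * M ^ 2) := by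
    rw [← sum_SX]
    calc ∑ n ∈ B, SX X n ≤ ∑ n ∈ B, Real.log (5 * M ^ 2) :=
          sum_le_sum fun n hn => (SX_le X (hB0 n hn)).trans (hBlog n hn)
      _ = (L : ℝ) ^ 2 * Real.log (5 * M ^ 2) := by
          rw [sum_const, nsmul_eq_mul, hBcard]
          push_cast
          ring
  -- translation
  have h2 : ∑ n ∈ Φ, SX X n ≤ (L : ℝ) ^ 2 * Real.log (5 * M ^ 2) +
      12 * (2 * τ * (L : ℝ) ^ 2 * MM X + (1 / τ + 5) * psi X) := by
    rw [sum_SX]
    have h3 : ∀ pk ∈ J X, (cnt Φ (pk.1 ^ pk.2) : ℝ) * Real.log (N pk.1) ≤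
        (cnt B (pk.1 ^ pk.2) : ℝ) * Real.log (N pk.1) +
          12 * (2 * τ * (L : ℝ) ^ 2 * (Real.log (N pk.1) / (N pk.1 : ℝ) ^ pk.2) +
            (1 / τ + 5) * Real.log (N pk.1)) := by
      intro pk hpk
      rw [mem_J] at hpk
      have hne : pk.1 ^ pk.2 ≠ 0 := pow_ne_zero _ hpk.1.ne_zero
      have h4 := translate hne 1 (1 - M) v L
      rw [← hΦ, ← hB] at h4
      set s := side (N (pk.1 ^ pk.2)) with hs
      have hs0 : 0 < s := side_pos _
      have h5 : (cnt Φ (pk.1 ^ pk.2) : ℝ) ≤ cnt B (pk.1 ^ pk.2) + 12 * ((L / s : ℕ) + 5) := by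
        exact_mod_cast h4
      have h6 : ((L / s : ℕ) : ℝ) ≤ (L : ℝ) / s := Nat.cast_div_le
      have h7 : (L : ℝ) / s ≤ 2 * τ * (L : ℝ) ^ 2 / (N pk.1 : ℝ) ^ pk.2 + 1 / τ := by
        have h8 := le_side_sq (N (pk.1 ^ pk.2))
        rw [← hs, N_pow] at h8
        have h9 : ((N pk.1 : ℝ)) ^ pk.2 ≤ 2 * (s : ℝ) ^ 2 := by exact_mod_cast h8
        have hNpos : (0 : ℝ) < (N pk.1 : ℝ) ^ pk.2 := by
          have := N_pos hpk.1.ne_zero
          positivity
        have hs0' : (0 : ℝ) < s := by exact_mod_cast hs0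
        have h10 : ((L : ℝ) / s) ^ 2 ≤ 2 * (L : ℝ) ^ 2 / (N pk.1 : ℝ) ^ pk.2 := by
          rw [div_pow, div_le_div_iff₀ (by positivity) hNpos]
          nlinarith [sq_nonneg (L : ℝ)]
        have h11 : (L : ℝ) / s ≤ τ * ((L : ℝ) / s) ^ 2 + 1 / τ := by
          set u : ℝ := (L : ℝ) / s with hu
          have hu0 : 0 ≤ u := by rw [hu]; positivity
          have h12 : 0 ≤ (τ * u - 1) ^ 2 / τ := by positivity
          have h13 : (τ * u - 1) ^ 2 / τ = τ * u ^ 2 - 2 * u + 1 / τ := by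
            field_simp
            ring
          linarith
        calc (L : ℝ) / s ≤ τ * ((L : ℝ) / s) ^ 2 + 1 / τ := h11
          _ ≤ τ * (2 * (L : ℝ) ^ 2 / (N pk.1 : ℝ) ^ pk.2) + 1 / τ := by gcongr
          _ = _ := by ring
      have hlog := log_N_nonneg pk.1
      calc (cnt Φ (pk.1 ^ pk.2) : ℝ) * Real.log (N pk.1) ≤
          (cnt B (pk.1 ^ pk.2) + 12 * ((2 * τ * (L : ℝ) ^ 2 / (N pk.1 : ℝ) ^ pk.2 + 1 / τ) + 5)) * Real.log (N pk.1) := by
            apply mul_le_mul_of_nonneg_right _ hlog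
            linarith
        _ = _ := by ring
    refine (sum_le_sum h3).trans ?_
    rw [sum_add_distrib, ← mul_sum, sum_add_distrib, ← mul_sum, ← mul_sum]
    unfold MM psi
    linarith
  -- the smooth numbers
  have hR : 0 ≤ R := by
    have h3 : (⟨1 + v.re, 1 - M + v.im⟩ : GaussianInt) ∈ Φ := by
      rw [hΦ, mem_box]
      have : (1 : ℤ) ≤ L := by omega
      refine ⟨⟨le_refl _, ?_⟩, le_refl _, ?_⟩
      · show 1 + v.re < 1 + v.re + L
        omega
      · show 1 - M + v.im < 1 - M + v.im + L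
        omega
    exact hm.trans ((hmR _ h3).1.trans (hmR _ h3).2)
  have hsub : smooth X Φ ⊆ Φ := filter_subset _ _
  have h3 : ((smooth X Φ).card : ℝ) * m ≤ ∑ n ∈ smooth X Φ, Real.log (N n) := by
    rw [← nsmul_eq_mul]
    exact card_nsmul_le_sum _ _ _ fun n hn => (hmR n (hsub hn)).1
  have h4 : ∑ n ∈ smooth X Φ, Real.log (N n) ≤ ∑ n ∈ smooth X Φ, (SX X n +
      ∑ p ∈ PX X, if X < N p ^ ((normalizedFactors n).count p) then Real.log (N n) else 0) := by
    refine sum_le_sum fun n hn => ?_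
    exact smooth_le X (h0 n (hsub hn)) (mem_filter.1 hn).2
  have h5 : ∑ n ∈ smooth X Φ, SX X n ≤ ∑ n ∈ Φ, SX X n := by
    apply sum_le_sum_of_subset_of_nonneg hsub
    intro n _ _
    unfold SX
    refine sum_nonneg fun pk _ => ?_
    have := log_N_nonneg pk.1
    split_ifs <;> simp [this]
  have h6 : ∑ n ∈ smooth X Φ, ∑ p ∈ PX X, (if X < N p ^ ((normalizedFactors n).count p) then Real.log (N n) else 0) ≤
      (PX X).card * R := by
    rw [sum_comm, ← nsmul_eq_mul, ← sum_const]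
    refine sum_le_sum fun p hp => ?_
    rw [mem_PX] at hp
    exact sum_exc hM R hR hp.1 hp.2.1 _ hsub (fun n hn => h0 n (hsub hn)) (fun n hn => (hmR n (hsub hn)).2)
  rw [sum_add_distrib] at h4
  linarith

end Q257.Gauss
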