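import Mathlib
import Pool.Agent.Q257.Gauss.Mass

/-!
# The squares `Φ_M`: a positive proportion has a large prime factor
-/

set_option autoImplicit false

open Finset

namespace Q257.Gauss

/-- the integer `⌊M ^ (1 + ε)⌋` -/
noncomputable def cen (ε : ℝ) (M : ℕ) : ℤ := ⌊(M : ℝ) ^ (1 + ε)⌋

/-- the square `⌊M ^ (1 + ε)⌋ + Q_M` as a box -/
noncomputable def Sq (ε : ℝ) (M : ℕ) : Finset GaussianInt :=
  box (1 + (⟨cen ε M - M, 0⟩ : GaussianInt).re) (2 * M - 1) (1 - M + (⟨cen ε M - M, 0⟩ : GaussianInt).im) (2 * M - 1)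

lemma mem_Sq {ε : ℝ} {M : ℕ} (hM : 1 ≤ M) {z : GaussianInt} : z ∈ Sq ε M ↔
    (cen ε M - M < z.re ∧ z.re < cen ε M + M) ∧ (-(M : ℤ) < z.im ∧ z.im < M) := by
  unfold Sq
  rw [mem_box]
  have h1 : (((2 * M - 1 : ℕ)) : ℤ) = 2 * M - 1 := by omega
  rw [h1]
  constructor
  · rintro ⟨⟨h1, h2⟩, h3, h4⟩
    refine ⟨⟨?_, ?_⟩, ?_, ?_⟩
    · simp only at h1 h2; omega
    · simp only at h1 h2; omega
    · simp only at h3 h4; omega
    · simp only at h3 h4; omega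
  · rintro ⟨⟨h1, h2⟩, h3, h4⟩
    refine ⟨⟨?_, ?_⟩, ?_, ?_⟩ <;> simp only <;> omega

lemma card_Sq (ε : ℝ) (M : ℕ) : (Sq ε M).card = (2 * M - 1) ^ 2 := by
  unfold Sq
  rw [card_box]
  ring

/-- the size of the elements of the square -/
lemma N_bounds {ε : ℝ} {M : ℕ} (hM : 1 ≤ M) (hbig : 2 * (M : ℝ) ≤ (M : ℝ) ^ (1 + ε))
    {z : GaussianInt} (hz : z ∈ Sq ε M) :
    ((M : ℝ) ^ (1 + ε)) ^ 2 / 4 ≤ N z ∧ (N z : ℝ) ≤ 5 * ((M : ℝ) ^ (1 + ε)) ^ 2 := by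
  rw [mem_Sq hM] at hz
  obtain ⟨⟨h1, h2⟩, h3, h4⟩ := hz
  set P : ℝ := (M : ℝ) ^ (1 + ε) with hP
  have hM1 : (1 : ℝ) ≤ M := by exact_mod_cast hM
  have hN : (N z : ℝ) = (z.re : ℝ) ^ 2 + (z.im : ℝ) ^ 2 := by exact_mod_cast N_cast z
  have hf1 : (cen ε M : ℝ) ≤ P := Int.floor_le _
  have hf2 : P < cen ε M + 1 := Int.lt_floor_add_one _
  have k1 : ((cen ε M : ℤ) : ℝ) - M + 1 ≤ z.re := by exact_mod_cast (by omega : cen ε M - M + 1 ≤ z.re)
  have k2 : ((z.re : ℤ) : ℝ) ≤ cen ε M + M := by exact_mod_cast h2.le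
  have k3 : -(M : ℝ) ≤ z.im := by exact_mod_cast h3.le
  have k4 : (z.im : ℝ) ≤ M := by exact_mod_cast h4.le
  have k5 : P / 2 ≤ z.re := by linarith
  have k6 : (z.re : ℝ) ≤ 3 / 2 * P := by linarith
  have k7 : (z.im : ℝ) ^ 2 ≤ (M : ℝ) ^ 2 := by
    rw [← sq_abs]
    apply pow_le_pow_left₀ (abs_nonneg _)
    rw [abs_le]
    exact ⟨k3, k4⟩
  have hP0 : 0 < P := by linarith
  rw [hN]
  constructor
  · nlinarith [sq_nonneg (z.im : ℝ)]
  · have k8 : (z.re : ℝ) ^ 2 ≤ (3 / 2 * P) ^ 2 := by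
      apply pow_le_pow_left₀ (by linarith) k6
    nlinarith

lemma eventually_big {ε : ℝ} (hε : 0 < ε) : ∀ᶠ M : ℕ in Filter.atTop, 2 * (M : ℝ) ≤ (M : ℝ) ^ (1 + ε) := by
  have h1 : Filter.Tendsto (fun M : ℕ => (M : ℝ) ^ ε) Filter.atTop Filter.atTop :=
    (tendsto_rpow_atTop hε).comp tendsto_natCast_atTop_atTop
  filter_upwards [h1.eventually_ge_atTop 2, Filter.eventually_ge_atTop 1] with M h2 h3
  have h4 : (0 : ℝ) < M := by exact_mod_cast h3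
  rw [Real.rpow_add h4, Real.rpow_one, mul_comm]
  gcongr

lemma log_five_le : Real.log 5 ≤ 2 := by
  have h := Real.log_two_lt_d9
  have h1 : Real.log 5 ≤ Real.log (2 ^ 2 * 2) := Real.log_le_log (by norm_num) (by norm_num)
  have h2 : Real.log (2 ^ 2 * 2 : ℝ) = 3 * Real.log 2 := by
    rw [show (2 ^ 2 * 2 : ℝ) = 2 ^ 3 by norm_num, Real.log_pow]
    norm_num
  have h3 : Real.log 5 ≤ Real.log 7 := Real.log_le_log (by norm_num) (by norm_num)
  have h4 : Real.log 5 < 2 := by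
    rw [Real.log_lt_iff_lt_exp (by norm_num)]
    have h5 : (2.7 : ℝ) < Real.exp 1 := by
      have := Real.exp_one_gt_d9
      linarith
    have h6 : Real.exp 2 = Real.exp 1 * Real.exp 1 := by rw [← Real.exp_add]; norm_num
    rw [h6]
    nlinarith
  exact h4.le

/-- A positive proportion of the elements of the square has a prime factor with norm more than `8 M ^ 2`. -/
theorem smooth_count {ε : ℝ} (hε : 0 < ε) : ∀ᶠ M : ℕ in Filter.atTop,
    ((smooth (8 * M ^ 2) (Sq ε M)).card : ℝ) ≤ (1 - ε / (8 * (1 + ε))) * ((2 * M - 1 : ℕ) : ℝ) ^ 2 := by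
  set C0 : ℝ := 2 + 4 / 3 * ε + 2304 * 3456 / ε + 11520 + 384 + 192 * ε with hC0
  have hlogT : Filter.Tendsto (fun M : ℕ => Real.log M) Filter.atTop Filter.atTop :=
    Real.tendsto_log_atTop.comp tendsto_natCast_atTop_atTop
  filter_upwards [eventually_big hε, Filter.eventually_ge_atTop 3,
    hlogT.eventually_ge_atTop (4 * (C0 + 2) / (3 * ε) + 1)] with M hbig hM3 hlogM
  have hM1 : 1 ≤ M := by omega
  have hMr : (3 : ℝ) ≤ M := by exact_mod_cast hM3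
  set ℓ : ℝ := Real.log M with hℓ
  have hC0pos : 0 < C0 := by rw [hC0]; positivity
  have hℓ1 : 1 ≤ ℓ := by
    have : 0 ≤ 4 * (C0 + 2) / (3 * ε) := by positivity
    linarith
  have hPlog : Real.log ((M : ℝ) ^ (1 + ε)) = (1 + ε) * ℓ := Real.log_rpow (by linarith) _
  have hPpos : (0 : ℝ) < (M : ℝ) ^ (1 + ε) := Real.rpow_pos_of_pos (by linarith) _
  -- the bounds for the logarithms
  have hmR : ∀ n ∈ Sq ε M, (2 + 2 * ε) * ℓ - 2 ≤ Real.log (N n) ∧ Real.log (N n) ≤ (2 + 2 * ε) * ℓ + 2 := by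
    intro n hn
    obtain ⟨h1, h2⟩ := N_bounds hM1 hbig hn
    have hNpos : (0 : ℝ) < N n := lt_of_lt_of_le (by positivity) h1
    constructor
    · have h3 : Real.log (((M : ℝ) ^ (1 + ε)) ^ 2 / 4) = (2 + 2 * ε) * ℓ - Real.log 4 := by
        rw [Real.log_div (by positivity) (by norm_num), Real.log_pow, hPlog]
        push_cast
        ring
      have h4 := Real.log_le_log (by positivity) h1
      have h5 := log_four_le
      linarith
    · have h3 : Real.log (5 * ((M : ℝ) ^ (1 + ε)) ^ 2) = (2 + 2 * ε) * ℓ + Real.log 5 := by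
        rw [Real.log_mul (by norm_num) (by positivity), Real.log_pow, hPlog]
        push_cast
        ring
      have h4 := Real.log_le_log hNpos h2
      have h5 := log_five_le
      linarith
  have h0 : ∀ n ∈ Sq ε M, n ≠ 0 := by
    intro n hn hn0
    obtain ⟨h1, h2⟩ := N_bounds hM1 hbig hn
    have hNpos : (0 : ℝ) < N n := lt_of_lt_of_le (by positivity) h1
    rw [hn0] at hNpos
    simp [N] at hNpos
  set τ : ℝ := ε / 3456 with hτ
  have hτ0 : 0 < τ := by rw [hτ]; positivity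
  have hmass := mass hM1 ⟨cen ε M - M, 0⟩ ((2 + 2 * ε) * ℓ - 2) ((2 + 2 * ε) * ℓ + 2) (by nlinarith)
    h0 hmR τ hτ0
  have hSq : box (1 + (⟨cen ε M - M, 0⟩ : GaussianInt).re) (2 * M - 1)
    (1 - M + (⟨cen ε M - M, 0⟩ : GaussianInt).im) (2 * M - 1) = Sq ε M := rfl
  rw [hSq] at hmass
  set L : ℝ := ((2 * M - 1 : ℕ) : ℝ) with hL
  have hLM : (M : ℝ) ≤ L := by
    rw [hL]
    exact_mod_cast (by omega : M ≤ 2 * M - 1)
  have hLsq : (M : ℝ) ^ 2 ≤ L ^ 2 := pow_le_pow_left₀ (by positivity) hLM 2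
  have hL0 : 0 ≤ L ^ 2 := by positivity
  -- the terms
  have t1 : Real.log (5 * (M : ℝ) ^ 2) ≤ 2 * ℓ + 2 := by
    rw [Real.log_mul (by norm_num) (by positivity), Real.log_pow]
    have := log_five_le
    push_cast
    linarith
  have hlogX : Real.log ((8 * M ^ 2 : ℕ) : ℝ) = 3 * Real.log 2 + 2 * ℓ := by
    push_cast
    rw [Real.log_mul (by norm_num) (by positivity), Real.log_pow, show (8 : ℝ) = 2 ^ 3 by norm_num, Real.log_pow]
    push_cast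
    ring
  have hl2 := Real.log_two_gt_d9
  have t2 : MM (8 * M ^ 2) ≤ 48 * (4 + 3 * ℓ) := by
    refine (MM_le _).trans ?_
    have h1 : (2 : ℝ) ^ (Nat.log 2 (8 * M ^ 2)) ≤ ((8 * M ^ 2 : ℕ) : ℝ) := by
      exact_mod_cast Nat.pow_log_le_self 2 (by positivity)
    have h2 : (Nat.log 2 (8 * M ^ 2) : ℝ) * Real.log 2 ≤ 3 * Real.log 2 + 2 * ℓ := by
      rw [← Real.log_pow, ← hlogX]
      exact Real.log_le_log (by positivity) h1
    have h3 : (Nat.log 2 (8 * M ^ 2) : ℝ) ≤ 3 + 3 * ℓ := by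
      by_contra hcon
      push Not at hcon
      nlinarith
    linarith
  have t3 : psi (8 * M ^ 2) ≤ 192 * L ^ 2 := by
    have h1 := psi_le (8 * M ^ 2) (by nlinarith)
    push_cast at h1
    linarith
  have t4 : ((PX (8 * M ^ 2)).card : ℝ) * ((2 + 2 * ε) * ℓ + 2) ≤ 96 * L ^ 2 * (4 + 2 * ε) := by
    have h1 := card_PX_le (8 * M ^ 2) (by nlinarith)
    rw [hlogX] at h1
    have h2 : ((PX (8 * M ^ 2)).card : ℝ) * ℓ ≤ 96 * L ^ 2 := by
      push_cast at h1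
      nlinarith [Nat.cast_nonneg (α := ℝ) (PX (8 * M ^ 2)).card]
    have h3 : ((PX (8 * M ^ 2)).card : ℝ) ≤ 96 * L ^ 2 := by
      nlinarith [Nat.cast_nonneg (α := ℝ) (PX (8 * M ^ 2)).card]
    nlinarith
  have hMM0 : 0 ≤ MM (8 * M ^ 2) := by
    unfold MM
    refine sum_nonneg fun pk _ => ?_
    have := log_N_nonneg pk.1
    positivity
  have hsum : ((smooth (8 * M ^ 2) (Sq ε M)).card : ℝ) * ((2 + 2 * ε) * ℓ - 2) ≤ L ^ 2 * ((2 + ε) * ℓ + C0) := by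
    refine hmass.trans ?_
    have e1 : L ^ 2 * Real.log (5 * (M : ℝ) ^ 2) ≤ L ^ 2 * (2 * ℓ + 2) := by gcongr
    have e2 : 2 * τ * L ^ 2 * MM (8 * M ^ 2) ≤ 2 * τ * L ^ 2 * (48 * (4 + 3 * ℓ)) := by gcongr
    have e3 : (1 / τ + 5) * psi (8 * M ^ 2) ≤ (1 / τ + 5) * (192 * L ^ 2) := by gcongr
    have e4 : 1 / τ = 3456 / ε := by rw [hτ]; field_simp
    calc _ ≤ L ^ 2 * (2 * ℓ + 2) + 12 * (2 * τ * L ^ 2 * (48 * (4 + 3 * ℓ)) + (1 / τ + 5) * (192 * L ^ 2)) +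
          96 * L ^ 2 * (4 + 2 * ε) := by linarith
      _ = L ^ 2 * ((2 + ε) * ℓ + C0) := by
          rw [e4, hτ, hC0]
          field_simp
          ring
  by_contra hcon
  push Not at hcon
  have hpos : 0 < (2 + 2 * ε) * ℓ - 2 + 1 := by nlinarith
  have hpos' : 0 ≤ (2 + 2 * ε) * ℓ - 2 := by nlinarith
  have hLpos : 0 < L ^ 2 := by
    have : 0 < L := by linarith
    positivity
  have h1 : (1 - ε / (8 * (1 + ε))) * L ^ 2 * ((2 + 2 * ε) * ℓ - 2) ≤ L ^ 2 * ((2 + ε) * ℓ + C0) :=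
    (mul_le_mul_of_nonneg_right hcon.le hpos').trans hsum
  have h2 : (1 - ε / (8 * (1 + ε))) * ((2 + 2 * ε) * ℓ - 2) ≤ (2 + ε) * ℓ + C0 := by
    have h3 : L ^ 2 * ((1 - ε / (8 * (1 + ε))) * ((2 + 2 * ε) * ℓ - 2)) ≤ L ^ 2 * ((2 + ε) * ℓ + C0) := by linarith
    exact le_of_mul_le_mul_left h3 hLpos
  have h3 : (1 - ε / (8 * (1 + ε))) * ((2 + 2 * ε) * ℓ - 2) =
      (2 + 2 * ε) * ℓ - 2 - ε / 4 * ℓ + ε / (4 * (1 + ε)) := by
    field_simp
    ring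
  rw [h3] at h2
  have h4 : 0 ≤ ε / (4 * (1 + ε)) := by positivity
  have h5 : 3 * ε * ℓ ≤ 4 * (C0 + 2) := by linarith
  have h6 : ℓ ≤ 4 * (C0 + 2) / (3 * ε) := by
    rw [le_div_iff₀ (by positivity)]
    linarith
  linarith

end Q257.Gauss
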