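import Mathlib
import Pool.Agent.Q257.Gauss.Smooth
import Pool.Agent.Q257.Gauss.Defs

/-!
# The construction of the function
-/

set_option autoImplicit false

open Finset

namespace Q257.Gauss

lemma Phi_eq (ε : ℝ) {M : ℕ} (hM : 1 ≤ M) : Phi ε M = Sq ε M := by
  ext z
  rw [mem_Sq hM]
  unfold Phi cen
  simp only [mem_image, mem_product, mem_Ioo, Prod.exists]
  constructor
  · rintro ⟨a, b, ⟨⟨h1, h2⟩, h3, h4⟩, rfl⟩
    refine ⟨⟨?_, ?_⟩, ?_, ?_⟩ <;> simp only <;> omega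
  · rintro ⟨⟨h1, h2⟩, h3, h4⟩
    refine ⟨z.re - ⌊(M : ℝ) ^ (1 + ε)⌋, z.im, ⟨⟨by omega, by omega⟩, h3, h4⟩, ?_⟩
    ext
    · simp
    · rfl

open scoped Classical in
/-- the elements of the square with a prime factor of norm more than `K M ^ 2` -/
noncomputable def bad (ε : ℝ) (M K : ℕ) : Finset GaussianInt :=
  (Sq ε M).filter (fun n => ∃ p, Prime p ∧ p ∣ n ∧ K * M ^ 2 < N p)

/-- the constant -/
noncomputable def cc (ε : ℝ) : ℝ := ε / (8 * (1 + ε))

lemma cc_pos {ε : ℝ} (hε : 0 < ε) : 0 < cc ε := by unfold cc; positivity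

lemma cc_le {ε : ℝ} (hε : 0 < ε) : cc ε ≤ 1 / 8 := by
  unfold cc
  rw [div_le_div_iff₀ (by positivity) (by norm_num)]
  linarith

lemma N_normalize (p : GaussianInt) : N (normalize p) = N p :=
  (N_assoc (associated_normalize p)).symm

/-- the elements with a prime factor of middle size are few -/
lemma middle_count (ε : ℝ) {M K : ℕ} (hM : 1 ≤ M) :
    (Sq ε M).card ≤ (smooth (8 * M ^ 2) (Sq ε M)).card + (PX (K * M ^ 2)).card + (bad ε M K).card := by
  classical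
  have h1 : Sq ε M ⊆ smooth (8 * M ^ 2) (Sq ε M) ∪
      ((PX (K * M ^ 2)).filter (fun p => 8 * M ^ 2 < N p)).biUnion (fun p => (Sq ε M).filter (fun n => p ∣ n)) ∪
      bad ε M K := by
    intro n hn
    rw [mem_union, mem_union]
    by_cases hs : ∀ p, Prime p → p ∣ n → N p ≤ 8 * M ^ 2
    · left; left
      exact mem_filter.2 ⟨hn, hs⟩
    · push Not at hs
      obtain ⟨p, hp, hpn, hN⟩ := hs
      by_cases hK : K * M ^ 2 < N p
      · right
        exact mem_filter.2 ⟨hn, p, hp, hpn, hK⟩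
      · left; right
        push Not at hK
        rw [mem_biUnion]
        refine ⟨normalize p, ?_, ?_⟩
        · rw [mem_filter, mem_PX, N_normalize]
          exact ⟨⟨(associated_normalize p).prime hp, normalize_idem p, hK⟩, hN⟩
        · rw [mem_filter]
          exact ⟨hn, (associated_normalize p).symm.dvd.trans hpn⟩
  refine (card_le_card h1).trans ?_
  refine (card_union_le _ _).trans (Nat.add_le_add_right ?_ _)
  refine (card_union_le _ _).trans (Nat.add_le_add_left ?_ _)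
  refine card_biUnion_le.trans ?_
  calc ∑ p ∈ (PX (K * M ^ 2)).filter (fun p => 8 * M ^ 2 < N p), ((Sq ε M).filter (fun n => p ∣ n)).card
      ≤ ∑ p ∈ (PX (K * M ^ 2)).filter (fun p => 8 * M ^ 2 < N p), 1 := by
        refine sum_le_sum fun p hp => ?_
        rw [mem_filter] at hp
        rw [card_le_one]
        intro n hn n' hn'
        rw [mem_filter] at hn hn'
        exact eq_of_close hn.2 hn'.2 ((N_sub_lt hM hn.1 hn'.1).trans hp.2)
    _ = ((PX (K * M ^ 2)).filter (fun p => 8 * M ^ 2 < N p)).card := by simp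
    _ ≤ (PX (K * M ^ 2)).card := card_filter_le _ _

/-- A positive proportion of the elements of the square has a prime factor with norm more than `K M ^ 2`. -/
lemma bad_count {ε : ℝ} (hε : 0 < ε) (K : ℕ) (hK : 1 ≤ K) : ∀ᶠ M : ℕ in Filter.atTop,
    cc ε / 2 * ((Sq ε M).card : ℝ) ≤ (bad ε M K).card := by
  have hlogT : Filter.Tendsto (fun M : ℕ => Real.log M) Filter.atTop Filter.atTop :=
    Real.tendsto_log_atTop.comp tendsto_natCast_atTop_atTop
  filter_upwards [smooth_count hε, eventually_big hε, Filter.eventually_ge_atTop 1,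
    hlogT.eventually_ge_atTop (48 * K / cc ε + 1)] with M h1 hbig hM h2
  have hc := cc_pos hε
  have hMr : (1 : ℝ) ≤ M := by exact_mod_cast hM
  have h3 : ((Sq ε M).card : ℝ) ≤ (smooth (8 * M ^ 2) (Sq ε M)).card + (PX (K * M ^ 2)).card + (bad ε M K).card := by
    exact_mod_cast middle_count ε hM
  have h4 : ((PX (K * M ^ 2)).card : ℝ) ≤ cc ε / 2 * (Sq ε M).card := by
    have h5 := card_PX_le (K * M ^ 2) (by nlinarith [Nat.one_le_pow 2 M hM])
    have h6 : Real.log M ≤ Real.log ((K * M ^ 2 : ℕ) : ℝ) := by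
      apply Real.log_le_log (by linarith)
      have : M ≤ K * M ^ 2 := by nlinarith
      exact_mod_cast this
    have h7 : ((PX (K * M ^ 2)).card : ℝ) * (48 * K / cc ε) ≤ 24 * (K * M ^ 2) := by
      calc ((PX (K * M ^ 2)).card : ℝ) * (48 * K / cc ε) ≤ ((PX (K * M ^ 2)).card : ℝ) * Real.log ((K * M ^ 2 : ℕ) : ℝ) := by
            gcongr
            linarith
        _ ≤ 24 * ((K * M ^ 2 : ℕ) : ℝ) := h5
        _ = 24 * (K * M ^ 2) := by push_cast; ring
    have hKr : (0 : ℝ) < K := by exact_mod_cast hK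
    have h8 : ((PX (K * M ^ 2)).card : ℝ) ≤ cc ε / 2 * M ^ 2 := by
      have h9 : ((PX (K * M ^ 2)).card : ℝ) * (48 * K / cc ε) = ((PX (K * M ^ 2)).card : ℝ) * (2 / cc ε) * (24 * K) := by ring
      rw [h9] at h7
      have h10 : ((PX (K * M ^ 2)).card : ℝ) * (2 / cc ε) ≤ M ^ 2 := by
        have h11 : ((PX (K * M ^ 2)).card : ℝ) * (2 / cc ε) * (24 * K) ≤ M ^ 2 * (24 * K) := by linarith
        exact le_of_mul_le_mul_right h11 (by positivity)
      have h12 : ((PX (K * M ^ 2)).card : ℝ) = ((PX (K * M ^ 2)).card : ℝ) * (2 / cc ε) * (cc ε / 2) := by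
        field_simp
      rw [h12, mul_comm (cc ε / 2)]
      gcongr
    refine h8.trans ?_
    have h13 : ((M : ℝ)) ^ 2 ≤ (Sq ε M).card := by
      rw [card_Sq]
      have : M ^ 2 ≤ (2 * M - 1) ^ 2 := Nat.pow_le_pow_left (by omega) 2
      exact_mod_cast this
    gcongr
  have h5 : ((Sq ε M).card : ℝ) = ((2 * M - 1 : ℕ) : ℝ) ^ 2 := by
    rw [card_Sq]
    push_cast
    ring
  rw [← h5] at h1
  change _ ≤ (1 - cc ε) * _ at h1
  linarith

open scoped Classical in
/-- a chosen large prime factor -/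
noncomputable def pick (M K : ℕ) (n : GaussianInt) : GaussianInt :=
  if h : ∃ p, Prime p ∧ p ∣ n ∧ K * M ^ 2 < N p then h.choose else 0

lemma pick_spec {M K : ℕ} {n : GaussianInt} (h : ∃ p, Prime p ∧ p ∣ n ∧ K * M ^ 2 < N p) :
    Prime (pick M K n) ∧ pick M K n ∣ n ∧ K * M ^ 2 < N (pick M K n) := by
  unfold pick
  rw [dif_pos h]
  exact h.choose_spec

open scoped Classical in
/-- the chosen primes -/
noncomputable def TT (ε : ℝ) (M K : ℕ) : Finset GaussianInt := (bad ε M K).image (pick M K)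

lemma mem_TT {ε : ℝ} {M K : ℕ} {p : GaussianInt} (hp : p ∈ TT ε M K) : Prime p ∧ K * M ^ 2 < N p := by
  classical
  unfold TT at hp
  rw [mem_image] at hp
  obtain ⟨n, hn, rfl⟩ := hp
  have h := pick_spec (mem_filter.1 hn).2
  exact ⟨h.1, h.2.2⟩

lemma bad_dvd {ε : ℝ} {M K : ℕ} {n : GaussianInt} (hn : n ∈ bad ε M K) : ∃ p ∈ TT ε M K, p ∣ n := by
  classical
  refine ⟨pick M K n, mem_image_of_mem _ hn, (pick_spec (mem_filter.1 hn).2).2.1⟩

lemma card_TT (ε : ℝ) (M K : ℕ) : (TT ε M K).card ≤ 4 * M ^ 2 := by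
  classical
  refine card_image_le.trans ((card_filter_le _ _).trans ?_)
  rw [card_Sq]
  calc (2 * M - 1) ^ 2 ≤ (2 * M) ^ 2 := Nat.pow_le_pow_left (by omega) 2
    _ = 4 * M ^ 2 := by ring

/-- the number of the elements of a large square which are divisible by one of the chosen primes -/
lemma TT_count (ε : ℝ) {M K M' : ℕ} (hM : 1 ≤ M) (hK : 1 ≤ K) :
    ∑ p ∈ TT ε M K, (cnt (Sq ε M') p : ℝ) ≤ 16 / K * ((2 * M' - 1 : ℕ) : ℝ) ^ 2 + 8 * (M : ℝ) ^ 2 := by
  set L : ℝ := ((2 * M' - 1 : ℕ) : ℝ) with hL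
  have hMr : (1 : ℝ) ≤ M := by exact_mod_cast hM
  have hKr : (1 : ℝ) ≤ K := by exact_mod_cast hK
  have h1 : ∀ p ∈ TT ε M K, (cnt (Sq ε M') p : ℝ) ≤ 4 * L ^ 2 / (K * M ^ 2) + 2 := by
    intro p hp
    obtain ⟨hp1, hp2⟩ := mem_TT hp
    have h2 := pack hp1.ne_zero (1 + (⟨cen ε M' - M', 0⟩ : GaussianInt).re) (2 * M' - 1)
      (1 - M' + (⟨cen ε M' - M', 0⟩ : GaussianInt).im) (2 * M' - 1)
    have h3 : (cnt (Sq ε M') p : ℝ) ≤ (((2 * M' - 1) / side (N p) : ℕ) + 1 : ℝ) ^ 2 := by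
      have h4 : cnt (Sq ε M') p ≤ ((2 * M' - 1) / side (N p) + 1) ^ 2 := by
        rw [pow_two]
        exact h2
      exact_mod_cast h4
    have hs0 : (0 : ℝ) < side (N p) := by exact_mod_cast side_pos (N p)
    have h4 : (((2 * M' - 1) / side (N p) : ℕ) : ℝ) ≤ L / side (N p) := Nat.cast_div_le
    have h5 : ((K : ℝ) * M ^ 2) ≤ 2 * (side (N p) : ℝ) ^ 2 := by
      have h6 := le_side_sq (N p)
      have h7 : K * M ^ 2 ≤ 2 * (side (N p)) ^ 2 := by omega
      exact_mod_cast h7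
    have h6 : (L / side (N p)) ^ 2 ≤ 2 * L ^ 2 / (K * M ^ 2) := by
      rw [div_pow, div_le_div_iff₀ (by positivity) (by positivity)]
      nlinarith [sq_nonneg L]
    have h7 : (((2 * M' - 1) / side (N p) : ℕ) + 1 : ℝ) ^ 2 ≤ 2 * (L / side (N p)) ^ 2 + 2 := by
      have h8 : (((2 * M' - 1) / side (N p) : ℕ) + 1 : ℝ) ^ 2 ≤ (L / side (N p) + 1) ^ 2 := by gcongr
      nlinarith [sq_nonneg (L / side (N p) - 1)]
    calc (cnt (Sq ε M') p : ℝ) ≤ 2 * (L / side (N p)) ^ 2 + 2 := h3.trans h7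
      _ ≤ 2 * (2 * L ^ 2 / (K * M ^ 2)) + 2 := by gcongr
      _ = 4 * L ^ 2 / (K * M ^ 2) + 2 := by ring
  calc ∑ p ∈ TT ε M K, (cnt (Sq ε M') p : ℝ) ≤ ∑ p ∈ TT ε M K, (4 * L ^ 2 / (K * M ^ 2) + 2) := sum_le_sum h1
    _ = (TT ε M K).card * (4 * L ^ 2 / (K * M ^ 2) + 2) := by rw [sum_const, nsmul_eq_mul]
    _ ≤ (4 * (M : ℝ) ^ 2) * (4 * L ^ 2 / (K * M ^ 2) + 2) := by
        have h2 : ((TT ε M K).card : ℝ) ≤ 4 * (M : ℝ) ^ 2 := by exact_mod_cast card_TT ε M K
        gcongr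
    _ = 16 / K * L ^ 2 + 8 * (M : ℝ) ^ 2 := by
        field_simp
        ring

open scoped Classical in
/-- the function: `0` at the multiples of the elements of `T`, otherwise `1` -/
noncomputable def ff (T : Set GaussianInt) (z : GaussianInt) : ℝ := if ∃ p ∈ T, p ∣ z then 0 else 1

lemma ff_mul {T : Set GaussianInt} (hT : ∀ p ∈ T, Prime p) : IsCompletelyMultiplicative (ff T) := by
  intro m n _ _
  unfold ff
  by_cases h1 : ∃ p ∈ T, p ∣ m
  · obtain ⟨p, hp, hpm⟩ := h1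
    rw [if_pos ⟨p, hp, dvd_mul_of_dvd_left hpm n⟩, if_pos ⟨p, hp, hpm⟩, zero_mul]
  · by_cases h2 : ∃ p ∈ T, p ∣ n
    · obtain ⟨p, hp, hpn⟩ := h2
      rw [if_pos ⟨p, hp, dvd_mul_of_dvd_right hpn m⟩, if_neg h1, if_pos ⟨p, hp, hpn⟩, mul_zero]
    · rw [if_neg h1, if_neg h2, mul_one, if_neg]
      rintro ⟨p, hp, hpmn⟩
      rcases (hT p hp).dvd_or_dvd hpmn with h | h
      · exact h1 ⟨p, hp, h⟩
      · exact h2 ⟨p, hp, h⟩

lemma ff_bdd (T : Set GaussianInt) : IsBdd (ff T) := by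
  refine ⟨1, fun n _ => ?_⟩
  unfold ff
  split_ifs <;> simp

lemma ff_nonneg (T : Set GaussianInt) (z : GaussianInt) : 0 ≤ ff T z := by
  unfold ff
  split_ifs <;> norm_num

open scoped Classical in
lemma sum_ff (T : Set GaussianInt) (S : Finset GaussianInt) :
    ∑ n ∈ S, ff T n = S.card - ((S.filter (fun n => ∃ p ∈ T, p ∣ n)).card : ℝ) := by
  have h1 : ∀ n, ff T n = 1 - if ∃ p ∈ T, p ∣ n then 1 else 0 := by
    intro n
    unfold ff
    split_ifs <;> norm_num
  simp only [h1, sum_sub_distrib, sum_const, nsmul_eq_mul, mul_one]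
  congr 1
  rw [card_filter]
  push_cast
  rfl

/-- the sequence of the scales -/
lemma exists_seq (n0 F : ℕ → ℕ) : ∃ M : ℕ → ℕ, (∀ j, n0 j ≤ M j) ∧ ∀ j, F (M j) ≤ M (j + 1) := by
  refine ⟨fun j => Nat.rec (n0 0) (fun j m => max (n0 (j + 1)) (F m)) j, fun j => ?_, fun j => ?_⟩
  · cases j with
    | zero => exact le_refl _
    | succ j => exact le_max_left _ _
  · exact le_max_right _ _

theorem main {ε : ℝ} (hε : 0 < ε) : ∃ f : GaussianInt → ℝ, IsCompletelyMultiplicative f ∧ IsBdd f ∧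
    ¬ ∃ ℓ : ℝ, Filter.Tendsto (avg ε f) Filter.atTop (nhds ℓ) := by
  classical
  set c := cc ε with hc
  have hc0 : 0 < c := cc_pos hε
  have hc8 : c ≤ 1 / 8 := cc_le hε
  -- the constants
  obtain ⟨K0, hK0⟩ := exists_nat_gt (256 / c)
  obtain ⟨Λ, hΛ⟩ := exists_nat_gt (128 / c)
  have hK0pos : (0 : ℝ) < K0 := lt_trans (by positivity) hK0
  have hΛpos : (0 : ℝ) < Λ := lt_trans (by positivity) hΛ
  have hΛ1 : 1 ≤ Λ := by exact_mod_cast hΛpos
  have hK01 : 1 ≤ K0 := by exact_mod_cast hK0pos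
  set K : ℕ → ℕ := fun j => K0 * 2 ^ j with hK
  have hKpos : ∀ j, 1 ≤ K j := fun j => Nat.mul_pos hK01 (by positivity)
  -- the thresholds
  have hthr : ∀ j, ∃ n0 : ℕ, ∀ M, n0 ≤ M → cc ε / 2 * ((Sq ε M).card : ℝ) ≤ (bad ε M (K j)).card :=
    fun j => Filter.eventually_atTop.1 (bad_count hε (K j) (hKpos j))
  choose n0 hn0 using hthr
  obtain ⟨n1, hn1⟩ := Filter.eventually_atTop.1 (eventually_big hε)
  obtain ⟨M, hM1, hM2⟩ := exists_seq (fun j => max (max (n0 j) n1) (j + 1))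
    (fun m => max (2 * m) (⌈(3 : ℝ) * ((Λ * m : ℕ) : ℝ) ^ (1 + ε)⌉₊))
  have hMn0 : ∀ j, n0 j ≤ M j := fun j => le_trans (le_trans (le_max_left _ _) (le_max_left _ _)) (hM1 j)
  have hMn1 : ∀ j, n1 ≤ M j := fun j => le_trans (le_trans (le_max_right _ _) (le_max_left _ _)) (hM1 j)
  have hMj : ∀ j, j + 1 ≤ M j := fun j => le_trans (le_max_right _ _) (hM1 j)
  have hMpos : ∀ j, 1 ≤ M j := fun j => le_trans (by omega) (hMj j)
  have hM2x : ∀ j, 2 * M j ≤ M (j + 1) := fun j => le_trans (le_max_left _ _) (hM2 j)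
  have hM3 : ∀ j, (3 : ℝ) * ((Λ * M j : ℕ) : ℝ) ^ (1 + ε) ≤ M (j + 1) := fun j => by
    refine (Nat.le_ceil _).trans ?_
    exact_mod_cast le_trans (le_max_right _ _) (hM2 j)
  have hMmono : Monotone M := monotone_nat_of_le_succ fun j => by
    have := hM2x j
    omega
  -- the set of primes
  set T : Set GaussianInt := {p | ∃ j, p ∈ TT ε (M j) (K j)} with hT
  have hTprime : ∀ p ∈ T, Prime p := by
    rintro p ⟨j, hp⟩
    exact (mem_TT hp).1
  refine ⟨ff T, ff_mul hTprime, ff_bdd T, ?_⟩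
  rintro ⟨ℓ, hℓ⟩
  have hMtop : Filter.Tendsto M Filter.atTop Filter.atTop :=
    Filter.tendsto_atTop_mono (fun j => (by have := hMj j; omega : j ≤ M j)) Filter.tendsto_id
  have hMtop' : Filter.Tendsto (fun j => Λ * M j) Filter.atTop Filter.atTop :=
    Filter.tendsto_atTop_mono (fun j => (by
      have := hMj j
      nlinarith : j ≤ Λ * M j)) Filter.tendsto_id
  -- the averages at the scales `M j`
  have hlow : ∀ j, avg ε (ff T) (M j) ≤ 1 - c / 2 := by
    intro j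
    unfold avg
    rw [Phi_eq ε (hMpos j)]
    have hcard : (0 : ℝ) < (Sq ε (M j)).card := by
      rw [card_Sq]
      have : 0 < (2 * M j - 1) ^ 2 := by
        have := hMpos j
        have h1 : 0 < 2 * M j - 1 := by omega
        positivity
      exact_mod_cast this
    rw [div_le_iff₀ hcard, sum_ff]
    have h1 : ((bad ε (M j) (K j)).card : ℝ) ≤ (((Sq ε (M j)).filter (fun n => ∃ p ∈ T, p ∣ n)).card : ℝ) := by
      have h2 : bad ε (M j) (K j) ⊆ (Sq ε (M j)).filter (fun n => ∃ p ∈ T, p ∣ n) := by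
        intro n hn
        obtain ⟨p, hp, hpn⟩ := bad_dvd hn
        rw [mem_filter]
        exact ⟨(mem_filter.1 hn).1, p, ⟨j, hp⟩, hpn⟩
      exact_mod_cast card_le_card h2
    have h2 := hn0 j (M j) (hMn0 j)
    linarith
  -- the averages at the scales `Λ M j`
  have hhigh : ∀ j, 1 - c / 4 ≤ avg ε (ff T) (Λ * M j) := by
    intro j
    have hM'pos : 1 ≤ Λ * M j := Nat.mul_pos hΛ1 (hMpos j)
    unfold avg
    rw [Phi_eq ε hM'pos]
    have hcard : ((Sq ε (Λ * M j)).card : ℝ) = ((2 * (Λ * M j) - 1 : ℕ) : ℝ) ^ 2 := by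
      rw [card_Sq]
      push_cast
      ring
    set L : ℝ := ((2 * (Λ * M j) - 1 : ℕ) : ℝ) with hL
    have hLM : (Λ : ℝ) * M j ≤ L := by
      rw [hL]
      exact_mod_cast (by omega : Λ * M j ≤ 2 * (Λ * M j) - 1)
    have hMjr : (1 : ℝ) ≤ M j := by exact_mod_cast hMpos j
    have hLpos : 0 < L := lt_of_lt_of_le (by positivity) hLM
    rw [le_div_iff₀ (by rw [hcard]; positivity), sum_ff, hcard]
    -- the multiples of the elements of `T`
    have h1 : (Sq ε (Λ * M j)).filter (fun n => ∃ p ∈ T, p ∣ n) ⊆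
        (range (j + 1)).biUnion (fun i => (TT ε (M i) (K i)).biUnion
          (fun p => (Sq ε (Λ * M j)).filter (fun n => p ∣ n))) := by
      intro n hn
      rw [mem_filter] at hn
      obtain ⟨hn1', p, ⟨i, hp⟩, hpn⟩ := hn
      rw [mem_biUnion]
      refine ⟨i, ?_, ?_⟩
      · rw [mem_range]
        by_contra hcon
        push Not at hcon
        obtain ⟨-, hp2⟩ := mem_TT hp
        have hbig : 2 * ((Λ * M j : ℕ) : ℝ) ≤ ((Λ * M j : ℕ) : ℝ) ^ (1 + ε) := by
          apply hn1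
          have := hMn1 j
          nlinarith
        obtain ⟨hb1, hb2⟩ := N_bounds hM'pos hbig hn1'
        set P : ℝ := ((Λ * M j : ℕ) : ℝ) ^ (1 + ε) with hP
        have hPpos : 0 < P := by
          rw [hP]
          apply Real.rpow_pos_of_pos
          exact_mod_cast hM'pos
        have hNn : (0 : ℝ) < N n := lt_of_lt_of_le (by positivity) hb1
        have h2 : N p ≤ N n := Nat.le_of_dvd (by exact_mod_cast hNn) (N_dvd hpn)
        have h3 : M (j + 1) ≤ M i := hMmono (by omega)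
        have h4 : (M (j + 1)) ^ 2 < N p := by
          have h5 : M (j + 1) ^ 2 ≤ K i * M i ^ 2 := by
            calc M (j + 1) ^ 2 ≤ M i ^ 2 := Nat.pow_le_pow_left h3 2
              _ = 1 * M i ^ 2 := (one_mul _).symm
              _ ≤ K i * M i ^ 2 := Nat.mul_le_mul_right _ (hKpos i)
          omega
        have h5 : ((M (j + 1) : ℝ)) ^ 2 < N n := by exact_mod_cast lt_of_lt_of_le h4 h2
        have h6 : (3 * P) ^ 2 ≤ ((M (j + 1) : ℝ)) ^ 2 := pow_le_pow_left₀ (by positivity) (hM3 j) 2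
        nlinarith
      · rw [mem_biUnion]
        exact ⟨p, hp, mem_filter.2 ⟨hn1', hpn⟩⟩
    have h2 : (((Sq ε (Λ * M j)).filter (fun n => ∃ p ∈ T, p ∣ n)).card : ℝ) ≤
        ∑ i ∈ range (j + 1), ∑ p ∈ TT ε (M i) (K i), (cnt (Sq ε (Λ * M j)) p : ℝ) := by
      have h3 : ((Sq ε (Λ * M j)).filter (fun n => ∃ p ∈ T, p ∣ n)).card ≤
          ∑ i ∈ range (j + 1), ∑ p ∈ TT ε (M i) (K i), cnt (Sq ε (Λ * M j)) p := by
        refine (card_le_card h1).trans (card_biUnion_le.trans (sum_le_sum fun i _ => ?_))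
        refine card_biUnion_le.trans (le_of_eq (sum_congr rfl fun p _ => ?_))
        unfold cnt
        congr
      exact_mod_cast h3
    have h3 : ∑ i ∈ range (j + 1), ∑ p ∈ TT ε (M i) (K i), (cnt (Sq ε (Λ * M j)) p : ℝ) ≤
        ∑ i ∈ range (j + 1), (16 / (K i : ℝ) * L ^ 2 + 8 * (M i : ℝ) ^ 2) :=
      sum_le_sum fun i _ => TT_count ε (hMpos i) (hKpos i)
    rw [sum_add_distrib, ← sum_mul, ← mul_sum] at h3
    have h4 : ∑ i ∈ range (j + 1), 16 / (K i : ℝ) ≤ c / 8 := by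
      have h5 : ∀ i, 16 / (K i : ℝ) = 16 / K0 * (1 / 2) ^ i := by
        intro i
        simp only [hK]
        push_cast
        rw [one_div, inv_pow]
        field_simp
      simp only [h5]
      rw [← mul_sum]
      have h6 := sum_geometric_two_le (j + 1)
      have h7 : 16 / (K0 : ℝ) ≤ c / 16 := by
        rw [div_le_div_iff₀ hK0pos (by norm_num)]
        rw [div_lt_iff₀ hc0] at hK0
        linarith
      calc 16 / (K0 : ℝ) * ∑ i ∈ range (j + 1), (1 / 2 : ℝ) ^ i ≤ c / 16 * 2 := by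
            apply mul_le_mul h7 h6 (sum_nonneg fun i _ => by positivity) (by positivity)
        _ = c / 8 := by ring
    have h5 : ∀ j, ∑ i ∈ range (j + 1), (M i : ℝ) ^ 2 ≤ 2 * (M j : ℝ) ^ 2 := by
      intro j
      induction j with
      | zero =>
        simp only [zero_add, range_one, sum_singleton]
        nlinarith [sq_nonneg (M 0 : ℝ)]
      | succ j ih =>
        rw [sum_range_succ]
        have h6 : 2 * (M j : ℝ) ≤ M (j + 1) := by exact_mod_cast hM2x j
        have h7 : (2 * (M j : ℝ)) ^ 2 ≤ (M (j + 1) : ℝ) ^ 2 := pow_le_pow_left₀ (by positivity) h6 2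
        nlinarith
    have h6 : 8 * ∑ i ∈ range (j + 1), (M i : ℝ) ^ 2 ≤ c / 8 * L ^ 2 := by
      have h7 : ((Λ : ℝ) * M j) ^ 2 ≤ L ^ 2 := pow_le_pow_left₀ (by positivity) hLM 2
      have h8 : 128 ≤ c * Λ ^ 2 := by
        rw [div_lt_iff₀ hc0] at hΛ
        have h9 : (1 : ℝ) ≤ Λ := by exact_mod_cast hΛ1
        nlinarith
      have h9 : 16 * (M j : ℝ) ^ 2 ≤ c / 8 * ((Λ : ℝ) * M j) ^ 2 := by
        rw [mul_pow]
        nlinarith [sq_nonneg (M j : ℝ)]
      have h10 : c / 8 * ((Λ : ℝ) * M j) ^ 2 ≤ c / 8 * L ^ 2 := by gcongr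
      have := h5 j
      linarith
    have h7 : (∑ i ∈ range (j + 1), 16 / (K i : ℝ)) * L ^ 2 ≤ c / 8 * L ^ 2 := by gcongr
    linarith
  have hl1 : ℓ ≤ 1 - c / 2 := le_of_tendsto (hℓ.comp hMtop) (Filter.Eventually.of_forall hlow)
  have hl2 : 1 - c / 4 ≤ ℓ := ge_of_tendsto (hℓ.comp hMtop') (Filter.Eventually.of_forall hhigh)
  linarith

end Q257.Gauss
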